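import Pool.Agent.Helper47.BSD.Defs

/-!
# Functoriality of the descent group
-/

set_option autoImplicit false

namespace Pool.Agent.Helper47.BSD

universe u

open Module TensorProduct

section

variable {ℓ : ℕ} {ι : Type} [Fintype ι] {a : ι → ℕ} {k : Type u} [Field k] {e : ι → k}

lemma pow_mem_descentGroup (c : ι → kˣ) : c ^ ℓ ∈ descentGroup ℓ a e :=
  Subgroup.subset_closure (Or.inr ⟨c, rfl⟩)

lemma mem_of_pow_mem {d : ι → kˣ} {n : ℕ} (hn : Nat.Coprime n ℓ)
    (h : d ^ n ∈ descentGroup ℓ a e) : d ∈ descentGroup ℓ a e := by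
  have h1 : d = (d ^ n) ^ (n.gcdA ℓ) * (d ^ ℓ) ^ (n.gcdB ℓ) := by
    rw [← zpow_natCast d n, ← zpow_natCast d ℓ, ← zpow_mul, ← zpow_mul, ← zpow_add,
      ← Nat.gcd_eq_gcd_ab, hn]
    simp
  rw [h1]
  exact mul_mem (zpow_mem h _) (zpow_mem (pow_mem_descentGroup d) _)

lemma det_lsmul_congr {B : Type u} [CommRing B] [Algebra k B] {M M' : Type u}
    [AddCommGroup M] [Module k M] [Module B M] [IsScalarTower k B M]
    [AddCommGroup M'] [Module k M'] [Module B M'] [IsScalarTower k B M']
    (f : M ≃ₗ[k] M') (hf : ∀ (b : B) (m : M), f (b • m) = b • f m) (b : B) :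
    LinearMap.det (Algebra.lsmul k k M b : M →ₗ[k] M) =
      LinearMap.det (Algebra.lsmul k k M' b : M' →ₗ[k] M') := by
  rw [← LinearMap.det_conj _ f]
  congr 1
  ext m
  simp [hf]

/-- Finite-dimensional modules: determinants of multiplication operators lie in the descent
group. -/
lemma det_mem (ha : ∀ i, a i ≠ 0) {B : Type u} [CommRing B] [Algebra k B]
    (x y : B) (hy : IsUnit y)
    (hxy : y ^ ℓ = ∏ i, (x - algebraMap k B (e i)) ^ a i) (n : ℕ) :
    ∀ (M : Type u) [AddCommGroup M] [Module k M] [Module B M] [IsScalarTower k B M]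
      [FiniteDimensional k M], finrank k M = n →
      ∃ d ∈ descentGroup ℓ a e, ∀ i, (d i : k) =
        LinearMap.det (Algebra.lsmul k k M (x - algebraMap k B (e i)) : M →ₗ[k] M) := by
  induction n using Nat.strong_induction_on with
  | _ n ih =>
    intro M _ _ _ _ _ hM
    rcases subsingleton_or_nontrivial M with hs | hnt
    · refine ⟨1, one_mem _, fun i => ?_⟩
      rw [LinearMap.det_eq_one_of_subsingleton]
      simp
    · have hart : IsArtinian B M := isArtinian_of_tower k inferInstance
      obtain ⟨N, hN⟩ := IsAtomic.exists_atom (Submodule B M)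
      have hsimple : IsSimpleModule B N := isSimpleModule_iff_isAtom.2 hN
      obtain ⟨I, hI, ⟨φ⟩⟩ := isSimpleModule_iff_quot_maximal.1 hsimple
      letI : Field (B ⧸ I) := Ideal.Quotient.field I
      let W : Submodule k M := N.restrictScalars k
      -- the restriction to `N`
      let φ' : N ≃ₗ[k] (B ⧸ I) := φ.restrictScalars k
      have hfd : FiniteDimensional k N := inferInstanceAs (FiniteDimensional k W)
      haveI : FiniteDimensional k (B ⧸ I) := LinearEquiv.finiteDimensional φ'
      have hres : ∀ b : B, LinearMap.det (Algebra.lsmul k k N b : N →ₗ[k] N) =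
          Algebra.norm k (Ideal.Quotient.mk I b) := by
        intro b
        rw [det_lsmul_congr φ' (fun b m => φ.map_smul b m) b, Algebra.norm_apply]
        congr 1
      -- generator coming from `N`
      have hy0 : Ideal.Quotient.mk I y ≠ 0 := (hy.map (Ideal.Quotient.mk I)).ne_zero
      have hxy' : (Ideal.Quotient.mk I y) ^ ℓ =
          ∏ i, (Ideal.Quotient.mk I x - algebraMap k (B ⧸ I) (e i)) ^ a i := by
        rw [← map_pow, hxy, map_prod]
        refine Finset.prod_congr rfl fun i _ => ?_
        rw [map_pow, map_sub]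
        rfl
      have hne : ∀ i, Ideal.Quotient.mk I x - algebraMap k (B ⧸ I) (e i) ≠ 0 := by
        intro i h0
        refine pow_ne_zero ℓ hy0 ?_
        rw [hxy']
        exact Finset.prod_eq_zero (Finset.mem_univ i) (by rw [h0, zero_pow (ha i)])
      have hne' : ∀ i, Algebra.norm k (Ideal.Quotient.mk I x - algebraMap k (B ⧸ I) (e i)) ≠ 0 :=
        fun i => Algebra.norm_ne_zero_iff.2 (hne i)
      let d₁ : ι → kˣ := fun i => Units.mk0 _ (hne' i)
      have hd₁ : d₁ ∈ descentGroup ℓ a e :=
        Subgroup.subset_closure (Or.inl ⟨B ⧸ I, inferInstance, inferInstance, inferInstance,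
          Ideal.Quotient.mk I x, Ideal.Quotient.mk I y, hy0, hxy', fun i => rfl⟩)
      -- the quotient
      have hlt : finrank k (M ⧸ N) < n := by
        have h1 := Submodule.finrank_quotient_add_finrank W
        have h2 : 0 < finrank k W := by
          rw [Module.finrank_pos_iff]
          exact (Submodule.nontrivial_iff_ne_bot).2 fun h => hN.1 (by
            rw [eq_bot_iff]
            intro z hz
            have : z ∈ W := hz
            rw [h] at this
            exact this)
        have h3 : finrank k (M ⧸ N) = finrank k (M ⧸ W) :=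
          (LinearEquiv.finrank_eq (Submodule.Quotient.restrictScalarsEquiv k N)).symm
        omega
      haveI : FiniteDimensional k (M ⧸ N) :=
        LinearEquiv.finiteDimensional (Submodule.Quotient.restrictScalarsEquiv k N)
      obtain ⟨d₂, hd₂, hd₂'⟩ := ih _ hlt (M ⧸ N) rfl
      refine ⟨d₁ * d₂, mul_mem hd₁ hd₂, fun i => ?_⟩
      have hW : W ≤ W.comap (Algebra.lsmul k k M (x - algebraMap k B (e i)) : M →ₗ[k] M) := by
        intro z hz
        exact N.smul_mem _ hz
      rw [LinearMap.det_eq_det_mul_det W _ hW]
      have e1 : LinearMap.det ((Algebra.lsmul k k M (x - algebraMap k B (e i)) :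
          M →ₗ[k] M).restrict hW) = d₁ i :=
        hres (x - algebraMap k B (e i))
      have e2 : LinearMap.det (W.mapQ W (Algebra.lsmul k k M (x - algebraMap k B (e i)) :
          M →ₗ[k] M) hW) = d₂ i := by
        rw [hd₂' i, ← LinearMap.det_conj _ (Submodule.Quotient.restrictScalarsEquiv k N)]
        congr 1
        refine LinearMap.ext fun z => ?_
        obtain ⟨z, rfl⟩ := Submodule.Quotient.mk_surjective _ z
        rfl
      rw [e1, e2]
      rfl

/-- Functoriality under homomorphisms of fields. -/
theorem mapUnits_mem (ha : ∀ i, a i ≠ 0) {k' : Type u} [Field k'] (f : k →+* k') {d : ι → kˣ}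
    (hd : d ∈ descentGroup ℓ a e) : mapUnits f d ∈ descentGroup ℓ a fun i => f (e i) := by
  letI : Algebra k k' := f.toAlgebra
  induction hd using Subgroup.closure_induction with
  | mem d hd =>
    rcases hd with ⟨L, _, _, _, x, y, hy, hxy, hd⟩ | ⟨c, rfl⟩
    · let B := TensorProduct k k' L
      let j : L →+* B := (Algebra.TensorProduct.includeRight : L →ₐ[k] B).toRingHom
      have hj : ∀ c : k, j (algebraMap k L c) = algebraMap k' B (f c) := by
        intro c
        change (1 : k') ⊗ₜ[k] (algebraMap k L c) = (f c) ⊗ₜ[k] (1 : L)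
        rw [Algebra.algebraMap_eq_smul_one, ← TensorProduct.smul_tmul, Algebra.smul_def, mul_one]
        rfl
      have hyB : IsUnit (j y) := (isUnit_iff_ne_zero.2 hy).map j
      have hxyB : (j y) ^ ℓ = ∏ i, (j x - algebraMap k' B (f (e i))) ^ a i := by
        rw [← map_pow, hxy, map_prod]
        refine Finset.prod_congr rfl fun i _ => ?_
        rw [map_pow, map_sub, hj]
      obtain ⟨d', hd', h⟩ := det_mem (k := k') (e := fun i => f (e i)) ha (j x) (j y) hyB hxyB _ B rfl
      convert hd'
      ext i
      rw [h i]
      have h1 : (mapUnits f d i : k') = f (d i) := rfl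
      rw [h1, hd i, Algebra.norm_apply]
      have h2 : f (LinearMap.det ((Algebra.lmul k L) (x - algebraMap k L (e i)))) =
          algebraMap k k' (LinearMap.det ((Algebra.lmul k L) (x - algebraMap k L (e i)))) := rfl
      rw [h2, ← LinearMap.det_baseChange]
      congr 1
      have h3 : j x - algebraMap k' B (f (e i)) = j (x - algebraMap k L (e i)) := by
        rw [map_sub, hj]
      rw [h3]
      ext z
      change (1 : k') ⊗ₜ[k] ((x - algebraMap k L (e i)) * z) =
        ((1 : k') ⊗ₜ[k] (x - algebraMap k L (e i))) * ((1 : k') ⊗ₜ[k] z)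
      rw [Algebra.TensorProduct.tmul_mul_tmul, one_mul]
    · have : mapUnits f ((fun c : ι → kˣ => c ^ ℓ) c) = (mapUnits f c) ^ ℓ := by
        ext i
        simp [mapUnits]
      rw [this]
      exact pow_mem_descentGroup _
  | one =>
    have : mapUnits f (1 : ι → kˣ) = 1 := by
      ext i
      simp [mapUnits]
    rw [this]
    exact one_mem _
  | mul x y _ _ hx hy =>
    have : mapUnits f (x * y) = mapUnits f x * mapUnits f y := by
      ext i
      simp [mapUnits]
    rw [this]
    exact mul_mem hx hy
  | inv x _ hx =>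
    have : mapUnits f x⁻¹ = (mapUnits f x)⁻¹ := by
      ext i
      simp [mapUnits]
    rw [this]
    exact inv_mem hx

/-- The descent group is stable under norms. -/
theorem norm_mem {L : Type u} [Field L] [Algebra k L] [FiniteDimensional k L] {d : ι → Lˣ}
    (hd : d ∈ descentGroup ℓ a fun i => algebraMap k L (e i)) :
    (fun i => Units.map (Algebra.norm k : L →* k) (d i)) ∈ descentGroup ℓ a e := by
  induction hd using Subgroup.closure_induction with
  | mem d hd =>
    rcases hd with ⟨M, _, _, _, x, y, hy, hxy, hd⟩ | ⟨c, rfl⟩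
    · letI : Algebra k M := ((algebraMap L M).comp (algebraMap k L)).toAlgebra
      haveI : IsScalarTower k L M := IsScalarTower.of_algebraMap_eq fun _ => rfl
      haveI : FiniteDimensional k M := Module.Finite.trans L M
      refine Subgroup.subset_closure (Or.inl ⟨M, inferInstance, inferInstance, inferInstance,
        x, y, hy, hxy, fun i => ?_⟩)
      rw [Units.coe_map, hd i, Algebra.norm_norm]
      rfl
    · have : (fun i => Units.map (Algebra.norm k : L →* k) ((fun c : ι → Lˣ => c ^ ℓ) c i)) =
          (fun i => Units.map (Algebra.norm k : L →* k) (c i)) ^ ℓ := by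
        ext i
        simp
      rw [this]
      exact pow_mem_descentGroup _
  | one =>
    have : (fun i => Units.map (Algebra.norm k : L →* k) ((1 : ι → Lˣ) i)) = 1 := by
      ext i
      simp
    rw [this]
    exact one_mem _
  | mul x y _ _ hx hy =>
    have : (fun i => Units.map (Algebra.norm k : L →* k) ((x * y) i)) =
        (fun i => Units.map (Algebra.norm k : L →* k) (x i)) *
          (fun i => Units.map (Algebra.norm k : L →* k) (y i)) := by
      ext i
      simp
    rw [this]
    exact mul_mem hx hy
  | inv x _ hx =>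
    have : (fun i => Units.map (Algebra.norm k : L →* k) (x⁻¹ i)) =
        (fun i => Units.map (Algebra.norm k : L →* k) (x i))⁻¹ := by
      ext i
      simp
    rw [this]
    exact inv_mem hx

end

end Pool.Agent.Helper47.BSD
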