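import Pool.Agent.Helper47.BSD.Compl

/-!
# Local factors of degree prime to `ℓ`
-/

set_option autoImplicit false

namespace Pool.Agent.Helper47.BSD

universe u

open Module Polynomial

lemma exists_irreducible_factor {F : Type u} [Field F] {ℓ : ℕ} (g : F[X])
    (hg : ¬ ℓ ∣ g.natDegree) : ∃ h : F[X], Irreducible h ∧ h ∣ g ∧ ¬ ℓ ∣ h.natDegree := by
  have hg0 : g ≠ 0 := fun h => hg (by rw [h, natDegree_zero]; exact dvd_zero _)
  induction g using UniqueFactorizationMonoid.induction_on_prime with
  | h₁ => exact absurd rfl hg0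
  | h₂ x hx => exact absurd (by rw [natDegree_eq_zero_of_isUnit hx]; exact dvd_zero _) hg
  | h₃ b q hb hq ih =>
    by_cases h : ℓ ∣ q.natDegree
    · have h1 : ¬ ℓ ∣ b.natDegree := fun h2 => hg (by
        rw [natDegree_mul hq.ne_zero hb]; exact dvd_add h h2)
      obtain ⟨r, hr, hrb, hrd⟩ := ih h1 hb
      exact ⟨r, hr, hrb.mul_left _, hrd⟩
    · exact ⟨q, hq.irreducible, dvd_mul_right _ _, h⟩

section

variable {K K' : Type u} [Field K] [Field K'] [Algebra K K'] [FiniteDimensional K K']
  [Algebra.IsSeparable K K']

/-- Over every place `v` of `K` there are a place `w` of `K'` and a finite extension `L` of the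
completion `K_v`, of degree prime to `ℓ`, which contains the completion `K'_w`. -/
theorem exists_local (p : ℕ) [CharP K p] (hp : p.Prime) {ℓ : ℕ}
    (hn : ¬ ℓ ∣ finrank K K') (v : AbsoluteValue K ℝ) (hv : v.IsNontrivial) :
    ∃ (w : AbsoluteValue K' ℝ) (_ : w.IsNontrivial) (L : Type u) (_ : Field L)
      (_ : Algebra v.Completion L) (_ : FiniteDimensional v.Completion L)
      (f : w.Completion →+* L), ¬ ℓ ∣ finrank v.Completion L ∧
        ∀ c : K, f (algebraMap K' w.Completion (algebraMap K K' c)) =
          algebraMap v.Completion L (algebraMap K v.Completion c) := by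
  haveI := ultra_completion v p hp
  letI := nontrivNormed v hv
  let pb := Field.powerBasisOfFiniteOfSeparable K K'
  have hdeg : ((minpoly K pb.gen).map (algebraMap K v.Completion)).natDegree = finrank K K' := by
    rw [natDegree_map, pb.natDegree_minpoly, pb.finrank]
  obtain ⟨h, hirr, hdvd, hhd⟩ := exists_irreducible_factor
    ((minpoly K pb.gen).map (algebraMap K v.Completion)) (by rw [hdeg]; exact hn)
  haveI : Fact (Irreducible h) := ⟨hirr⟩
  let L := AdjoinRoot h
  haveI hfin : FiniteDimensional v.Completion L := (AdjoinRoot.powerBasis hirr.ne_zero).finite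
  have hfr : finrank v.Completion L = h.natDegree := by
    rw [(AdjoinRoot.powerBasis hirr.ne_zero).finrank, AdjoinRoot.powerBasis_dim]
  have hroot : aeval (AdjoinRoot.root h) (minpoly K pb.gen) = 0 := by
    obtain ⟨q, hq⟩ := hdvd
    have h1 : aeval (AdjoinRoot.root h) ((minpoly K pb.gen).map (algebraMap K v.Completion)) = 0 := by
      rw [hq, map_mul, AdjoinRoot.aeval_eq, AdjoinRoot.mk_self, zero_mul]
    rwa [aeval_map_algebraMap] at h1
  let σ : K' →ₐ[K] L := pb.lift (AdjoinRoot.root h) hroot
  let w : AbsoluteValue K' ℝ := (specAbs v.Completion L).comp (f := σ.toRingHom) σ.injective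
  have hwv : ∀ c : K, w (algebraMap K K' c) = v c := by
    intro c
    have h1 : σ (algebraMap K K' c) = algebraMap v.Completion L (algebraMap K v.Completion c) := by
      rw [σ.commutes]
      rfl
    have h2 : w (algebraMap K K' c) = specAbs v.Completion L (σ (algebraMap K K' c)) := rfl
    rw [h2, h1, specAbs_algebraMap]
    exact norm_algebraMap v c
  have hw : w.IsNontrivial := by
    obtain ⟨x, hx0, hx⟩ := hv
    exact ⟨algebraMap K K' x, by simpa using hx0, by rw [hwv]; exact hx⟩
  letI hNF : NormedField L := spectralNorm.normedField v.Completion L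
  haveI hcs : CompleteSpace L := spectralNorm.completeSpace v.Completion L
  let g : WithAbs w →+* L := σ.toRingHom.comp (WithAbs.equiv w).toRingHom
  have hg : Isometry g := AddMonoidHomClass.isometry_of_norm g fun x => rfl
  refine ⟨w, hw, L, inferInstance, inferInstance, hfin,
    UniformSpace.Completion.extensionHom g hg.continuous, by rw [hfr]; exact hhd, fun c => ?_⟩
  have h1 : (algebraMap K' w.Completion (algebraMap K K' c) : w.Completion) =
      ((WithAbs.toAbs w (algebraMap K K' c) : WithAbs w) : w.Completion) := rfl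
  rw [h1, UniformSpace.Completion.extensionHom_coe]
  change σ (algebraMap K K' c) = _
  rw [σ.commutes]
  rfl

end

end Pool.Agent.Helper47.BSD
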