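import Pool.Agent.Helper47.BSD.Emb
import Pool.Agent.Helper47.BSD.Functor
import Pool.Agent.Helper47.BSD.Local

/-!
# Invariance of the Selmer group
-/

set_option autoImplicit false

namespace Pool.Agent.Helper47.BSD

universe u

open Module

section

variable {ℓ : ℕ} {ι : Type} [Fintype ι] {a : ι → ℕ}

/-- Descent of membership in the descent group along extensions of degree prime to `ℓ`. -/
lemma mem_of_map_mem (hℓ : ℓ.Prime) {k : Type u} [Field k] {e : ι → k} {L : Type u} [Field L]
    [Algebra k L] [FiniteDimensional k L] (hn : ¬ ℓ ∣ finrank k L) {d : ι → kˣ}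
    (hd : mapUnits (algebraMap k L) d ∈ descentGroup ℓ a fun i => algebraMap k L (e i)) :
    d ∈ descentGroup ℓ a e := by
  have h1 := norm_mem hd
  have h2 : (fun i => Units.map (Algebra.norm k : L →* k) (mapUnits (algebraMap k L) d i)) =
      d ^ finrank k L := by
    ext i
    simp [mapUnits, Algebra.norm_algebraMap]
  rw [h2] at h1
  exact mem_of_pow_mem ((Nat.Prime.coprime_iff_not_dvd hℓ).2 hn).symm h1

omit [Fintype ι] in
lemma mapUnits_mul {k k' : Type u} [Field k] [Field k'] (f : k →+* k') (c d : ι → kˣ) :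
    mapUnits f (c * d) = mapUnits f c * mapUnits f d := by
  ext i
  simp [mapUnits]

omit [Fintype ι] in
lemma mapUnits_pow {k k' : Type u} [Field k] [Field k'] (f : k →+* k') (c : ι → kˣ) (n : ℕ) :
    mapUnits f (c ^ n) = mapUnits f c ^ n := by
  ext i
  simp [mapUnits]

lemma mul_pow_mem_iff {k : Type u} [Field k] {e : ι → k} (d x : ι → kˣ) :
    d * x ^ ℓ ∈ descentGroup ℓ a e ↔ d ∈ descentGroup ℓ a e := by
  constructor
  · intro h
    have := mul_mem h (inv_mem (pow_mem_descentGroup (ℓ := ℓ) (a := a) (e := e) x))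
    rwa [mul_inv_cancel_right] at this
  · intro h
    exact mul_mem h (pow_mem_descentGroup x)

variable {K K' : Type u} [Field K] [Field K'] [Algebra K K'] [FiniteDimensional K K']

lemma isNontrivial_comp (w : AbsoluteValue K' ℝ) (hw : w.IsNontrivial) :
    (w.comp (f := algebraMap K K') (algebraMap K K').injective).IsNontrivial := by
  classical
  by_contra hv
  have hv' : ∀ c : K, w (algebraMap K K' c) ≤ 1 := by
    intro c
    by_cases hc : c = 0
    · rw [hc, map_zero, map_zero]
      exact zero_le_one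
    · exact (AbsoluteValue.not_isNontrivial_apply hv hc).le
  let b := Module.finBasis K K'
  have hbd : ∀ z : K', w z ≤ ∑ i, w (b i) := by
    intro z
    rw [← b.sum_repr z]
    refine (w.sum_le _ _).trans (Finset.sum_le_sum fun i _ => ?_)
    rw [Algebra.smul_def, map_mul]
    exact mul_le_of_le_one_left (w.nonneg _) (hv' _)
  obtain ⟨z, hz⟩ := hw.exists_abv_gt_one
  obtain ⟨n, hn⟩ := pow_unbounded_of_one_lt (∑ i, w (b i)) hz
  have := hbd (z ^ n)
  rw [map_pow] at this
  exact absurd this (not_le.2 hn)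

lemma selmer_map (ha : ∀ i, a i ≠ 0) {e : ι → K}
    {d : ι → Kˣ} (hd : d ∈ selmerSet ℓ a e) :
    mapUnits (algebraMap K K') d ∈ selmerSet ℓ a fun i => algebraMap K K' (e i) := by
  intro w hw
  let v : AbsoluteValue K ℝ := w.comp (f := algebraMap K K') (algebraMap K K').injective
  have hv : v.IsNontrivial := isNontrivial_comp w hw
  let g : WithAbs v →+* WithAbs w := WithAbs.map v w (algebraMap K K')
  have hg : Isometry g := AddMonoidHomClass.isometry_of_norm g fun x => rfl
  have h1 := mapUnits_mem ha (UniformSpace.Completion.mapRingHom g hg.continuous) (hd v hv)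
  have h2 : ∀ c : K, UniformSpace.Completion.mapRingHom g hg.continuous
      (algebraMap K v.Completion c) = algebraMap K' w.Completion (algebraMap K K' c) := by
    intro c
    have h3 : (algebraMap K v.Completion c : v.Completion) =
      ((WithAbs.toAbs v c : WithAbs v) : v.Completion) := rfl
    rw [h3]
    exact UniformSpace.Completion.map_coe hg.uniformContinuous _
  have h4 : mapUnits (UniformSpace.Completion.mapRingHom g hg.continuous)
      (mapUnits (algebraMap K v.Completion) d) =
      mapUnits (algebraMap K' w.Completion) (mapUnits (algebraMap K K') d) := by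
    ext i
    exact h2 _
  rw [h4] at h1
  simpa only [h2] using h1

/-- Descent of membership in the Selmer set. -/
lemma selmer_descend [Algebra.IsSeparable K K'] (hℓ : ℓ.Prime) (ha : ∀ i, a i ≠ 0) (p : ℕ)
    [CharP K p] (hp : p.Prime) (hn : ¬ ℓ ∣ finrank K K') {e : ι → K} {d : ι → Kˣ}
    (hd : mapUnits (algebraMap K K') d ∈ selmerSet ℓ a fun i => algebraMap K K' (e i)) :
    d ∈ selmerSet ℓ a e := by
  intro v hv
  obtain ⟨w, hw, L, _, _, _, f, hL, hf⟩ := exists_local (K' := K') p hp hn v hv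
  refine mem_of_map_mem (L := L) hℓ hL ?_
  have h1 := mapUnits_mem ha f (hd w hw)
  have h2 : mapUnits f (mapUnits (algebraMap K' w.Completion) (mapUnits (algebraMap K K') d)) =
      mapUnits (algebraMap v.Completion L) (mapUnits (algebraMap K v.Completion) d) := by
    ext i
    exact hf _
  rw [h2] at h1
  simpa only [hf] using h1

omit [FiniteDimensional K K'] in
/-- The value of an element of the Selmer set at a place of good reduction. -/
lemma exists_root_of_good (hℓ : ℓ.Prime) (ha : ∀ i, ¬ ℓ ∣ a i) (hs : ¬ ℓ ∣ ∑ i, a i) (p : ℕ)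
    [CharP K' p] (hp : p.Prime) {e : ι → K} (v : AbsoluteValue K ℝ) (hv : v.IsNontrivial)
    (hg : IsGood ℓ e v) {d' : ι → K'ˣ}
    (hd' : d' ∈ selmerSet ℓ a fun i => algebraMap K K' (e i)) (i : ι) (w : AbsoluteValue K' ℝ)
    (hw : ∀ c, w (algebraMap K K' c) = v c) : ∃ x : K', x ≠ 0 ∧ w (d' i) = w x ^ ℓ := by
  have hwn : w.IsNontrivial := by
    obtain ⟨x, hx0, hx⟩ := hv
    exact ⟨algebraMap K K' x, by simpa using hx0, by rw [hw]; exact hx⟩
  obtain ⟨c, m, hc, h1, h2⟩ := hg
  haveI := ultra_completion w p hp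
  letI := nontrivNormed w hwn
  have hnorm : ∀ x : K', ‖algebraMap K' w.Completion x‖ = w x := norm_algebraMap w
  obtain ⟨r, hr, hr'⟩ := good_value (k := w.Completion) hℓ ha hs
    (fun i => algebraMap K' w.Completion (algebraMap K K' (e i)))
    (algebraMap K' w.Completion (algebraMap K K' c))
    (algebraMap K' w.Completion (algebraMap K K' m)) (by simpa using hc)
    (fun i => by
      rw [← map_pow, ← map_pow, ← map_sub, ← map_sub, ← map_mul, ← map_mul]
      exact (hnorm _).trans_le ((hw _).trans_le (h1 i)))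
    (fun i j hij => by
      rw [← map_pow, ← map_pow, ← map_sub, ← map_sub, ← map_mul, ← map_mul]
      exact (hnorm _).trans ((hw _).trans (h2 i j hij)))
    (mapUnits (algebraMap K' w.Completion) d') (hd' w hwn) i
  obtain ⟨x, hx, hx'⟩ := exists_abs_eq w p hp r hr
  refine ⟨x, hx, ?_⟩
  rw [hx']
  exact (hnorm _).symm.trans hr'

/-- Every element of the Selmer set of `K'` comes from `K` up to `ℓ`-th powers. -/
theorem selmer_lift [Algebra.IsSeparable K K'] (hℓ : ℓ.Prime) (ha : ∀ i, ¬ ℓ ∣ a i)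
    (hs : ¬ ℓ ∣ ∑ i, a i) (p : ℕ) [CharP K p] (hp : p.Prime) (hn : ¬ ℓ ∣ finrank K K')
    {e : ι → K}
    (hU : ∀ v : AbsoluteValue K ℝ, v.IsNontrivial → ¬ IsGood ℓ e v →
      ∀ w₁ w₂ : AbsoluteValue K' ℝ, (∀ c, w₁ (algebraMap K K' c) = v c) →
        (∀ c, w₂ (algebraMap K K' c) = v c) → w₁ = w₂)
    (hH : ∀ z : K'ˣ, (∀ w : AbsoluteValue K' ℝ, w.IsNontrivial → ∃ x : K'ˣ, w z = w x ^ ℓ) →
      ∃ (c : Kˣ) (x : K'ˣ), (z : K') = algebraMap K K' c * x ^ ℓ)
    {d' : ι → K'ˣ} (hd' : d' ∈ selmerSet ℓ a fun i => algebraMap K K' (e i)) :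
    ∃ (d : ι → Kˣ) (x : ι → K'ˣ), d' = mapUnits (algebraMap K K') d * x ^ ℓ := by
  haveI : CharP K' p := charP_of_injective_algebraMap (algebraMap K K').injective p
  have key : ∀ i, ∃ (c : Kˣ) (x : K'ˣ), d' i = Units.map (algebraMap K K' : K →* K') c * x ^ ℓ := by
    intro i
    set z : K'ˣ := d' i with hz
    let N : Kˣ := Units.map (Algebra.norm K : K' →* K) z
    have hbez : (1 : ℤ) = (finrank K K' : ℤ) * (finrank K K').gcdA ℓ + ℓ * (finrank K K').gcdB ℓ := by
      have := Nat.gcd_eq_gcd_ab (finrank K K') ℓ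
      rw [((Nat.Prime.coprime_iff_not_dvd hℓ).2 hn).symm] at this
      exact_mod_cast this
    set A := (finrank K K').gcdA ℓ
    set B := (finrank K K').gcdB ℓ
    let t : K'ˣ := z * (Units.map (algebraMap K K' : K →* K') N) ^ (-A)
    have ht : ∀ w : AbsoluteValue K' ℝ, w.IsNontrivial → ∃ x : K'ˣ, w t = w x ^ ℓ := by
      intro w hw
      let v : AbsoluteValue K ℝ := w.comp (f := algebraMap K K') (algebraMap K K').injective
      have hv : v.IsNontrivial := isNontrivial_comp w hw
      have hwt : w t = w z * v (Algebra.norm K (z : K')) ^ (-A) := by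
        change w ((z * (Units.map (algebraMap K K' : K →* K') N) ^ (-A) : K'ˣ) : K') = _
        rw [Units.val_mul, map_mul, Units.val_zpow_eq_zpow_val, map_zpow₀]
        rfl
      have hz0 : w z ≠ 0 := w.ne_zero z.ne_zero
      by_cases hgood : IsGood ℓ e v
      · have h1 := exists_root_of_good hℓ ha hs p hp v hv hgood hd' i
        obtain ⟨y, hy0, hy⟩ := abs_norm_of_forall p hp v hv (z : K') h1
        obtain ⟨x, hx0, hx⟩ := h1 w fun _ => rfl
        refine ⟨Units.mk0 x hx0 * Units.mk0 (algebraMap K K' y) (by simpa using hy0) ^ (-A), ?_⟩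
        rw [hwt, hy, hx, Units.val_mul, map_mul, Units.val_zpow_eq_zpow_val, map_zpow₀, mul_pow,
          Units.val_mk0, Units.val_mk0, ← zpow_natCast (v y), ← zpow_mul, mul_comm (ℓ : ℤ),
          zpow_mul, zpow_natCast]
        rfl
      · have h1 := abs_norm_of_unique p hp v hv w
          (fun w₁ hw₁ => hU v hv hgood w₁ w hw₁ fun _ => rfl) (z : K')
        refine ⟨z ^ B, ?_⟩
        rw [hwt, h1, Units.val_zpow_eq_zpow_val, map_zpow₀, ← zpow_natCast (w z), ← zpow_mul,
          ← zpow_natCast ((w z) ^ B), ← zpow_mul]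
        nth_rewrite 1 [← zpow_one (w z)]
        rw [← zpow_add₀ hz0]
        congr 1
        linarith
    obtain ⟨c, x, hcx⟩ := hH t ht
    refine ⟨c * N ^ A, x, ?_⟩
    have h2 : t = Units.map (algebraMap K K' : K →* K') c * x ^ ℓ := by
      ext
      rw [hcx]
      simp
    have h3 : z = t * (Units.map (algebraMap K K' : K →* K') N) ^ A := by
      change z = z * (Units.map (algebraMap K K' : K →* K') N) ^ (-A) *
        (Units.map (algebraMap K K' : K →* K') N) ^ A
      rw [mul_assoc, ← zpow_add, neg_add_cancel, zpow_zero, mul_one]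
    rw [h3, h2, map_mul, map_zpow]
    exact mul_right_comm _ _ _
  choose d x hdx using key
  exact ⟨d, x, funext hdx⟩

omit [Fintype ι] in
/-- A tuple over `K` which becomes an `ℓ`-th power over `K'` is an `ℓ`-th power. -/
lemma pow_of_map_pow (hℓ : ℓ.Prime) (hn : ¬ ℓ ∣ finrank K K') {d : ι → Kˣ} {x : ι → K'ˣ}
    (h : mapUnits (algebraMap K K') d = x ^ ℓ) : ∃ y : ι → Kˣ, d = y ^ ℓ := by
  have h1 : d ^ finrank K K' = (fun i => Units.map (Algebra.norm K : K' →* K) (x i)) ^ ℓ := by
    have h2 : d ^ finrank K K' =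
        fun i => Units.map (Algebra.norm K : K' →* K) (mapUnits (algebraMap K K') d i) := by
      ext i
      simp [mapUnits, Algebra.norm_algebraMap]
    rw [h2, h]
    ext i
    simp
  have hbez : (1 : ℤ) = (finrank K K' : ℤ) * (finrank K K').gcdA ℓ + ℓ * (finrank K K').gcdB ℓ := by
    have := Nat.gcd_eq_gcd_ab (finrank K K') ℓ
    rw [((Nat.Prime.coprime_iff_not_dvd hℓ).2 hn).symm] at this
    exact_mod_cast this
  refine ⟨(fun i => Units.map (Algebra.norm K : K' →* K) (x i)) ^ ((finrank K K').gcdA ℓ) *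
    d ^ ((finrank K K').gcdB ℓ), ?_⟩
  rw [mul_pow, ← zpow_natCast _ ℓ, ← zpow_mul, mul_comm ((finrank K K').gcdA ℓ) (ℓ : ℤ), zpow_mul,
    zpow_natCast, ← h1, ← zpow_natCast (d ^ (finrank K K').gcdB ℓ) ℓ, ← zpow_mul,
    ← zpow_natCast d (finrank K K'), ← zpow_mul, ← zpow_add,
    mul_comm ((finrank K K').gcdB ℓ) (ℓ : ℤ), ← hbez, zpow_one]

/-- Every element of the descent group is in the Selmer set. -/
lemma descentGroup_le_selmer (ha : ∀ i, a i ≠ 0) {e : ι → K} {d : ι → Kˣ}
    (hd : d ∈ descentGroup ℓ a e) : d ∈ selmerSet ℓ a e :=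
  fun _ _ => mapUnits_mem ha _ hd

end

end Pool.Agent.Helper47.BSD
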