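import Pool.Agent.Helper47.BSD.LegGlobal

/-!
# Absolute values on `F(t)`, `F` finite
-/

set_option autoImplicit false

namespace Pool.Agent.Helper47.BSD

open Polynomial

section

variable {F : Type} [Field F]

/-- polynomials as rational functions -/
noncomputable abbrev rf (g : F[X]) : RatFunc F := algebraMap F[X] (RatFunc F) g

lemma rf_ne_zero {g : F[X]} (hg : g ≠ 0) : rf g ≠ 0 := by
  simpa [rf] using hg

lemma exists_rf_decomp {π : F[X]} (hπ : Irreducible π) {z : RatFunc F} (hz : z ≠ 0) :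
    ∃ (n : ℤ) (g h : F[X]), ¬ π ∣ g ∧ ¬ π ∣ h ∧ z = rf π ^ n * rf g / rf h := by
  have h1 : z.num ≠ 0 := by
    rw [Ne, RatFunc.num_eq_zero_iff]; exact hz
  have h2 : z.denom ≠ 0 := z.denom_ne_zero
  obtain ⟨a, g, hg, e1⟩ := WfDvdMonoid.max_power_factor h1 hπ
  obtain ⟨b, h, hh, e2⟩ := WfDvdMonoid.max_power_factor h2 hπ
  refine ⟨(a : ℤ) - b, g, h, hg, hh, ?_⟩
  have hπ0 : rf π ≠ 0 := rf_ne_zero hπ.ne_zero
  have hh0 : rf h ≠ 0 := rf_ne_zero (by rintro rfl; exact hh (dvd_zero _))
  have e3 : z = rf z.num / rf z.denom := (RatFunc.num_div_denom z).symm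
  rw [e3, e1, e2]
  simp only [rf, map_mul, map_pow]
  change rf π ^ a * rf g / (rf π ^ b * rf h) = _
  rw [zpow_sub₀ hπ0, zpow_natCast, zpow_natCast]
  field_simp

variable [Finite F] (v : AbsoluteValue (RatFunc F) ℝ)

lemma abs_C {c : F} (hc : c ≠ 0) : v (RatFunc.C c) = 1 := by
  haveI := Fintype.ofFinite F
  refine abs_root_unity v (n := Fintype.card F - 1) ?_ ?_
  · have := Fintype.one_lt_card (α := F)
    omega
  · rw [← map_pow, FiniteField.pow_card_sub_one_eq_one c hc, map_one]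

lemma abs_rf_C {c : F} (hc : c ≠ 0) : v (rf (C c)) = 1 := by
  have : rf (C c) = RatFunc.C c := RatFunc.algebraMap_C c
  rw [this]
  exact abs_C v hc

lemma exists_charP : ∃ p : ℕ, p.Prime ∧ CharP (RatFunc F) p := by
  obtain ⟨p, hp⟩ := CharP.exists F
  haveI := Fintype.ofFinite F
  have hp' : p.Prime := (CharP.char_is_prime_or_zero F p).resolve_right
    (CharP.char_ne_zero_of_finite F p)
  exact ⟨p, hp', charP_of_injective_algebraMap (algebraMap F (RatFunc F)).injective p⟩

lemma na (x y : RatFunc F) : v (x + y) ≤ max (v x) (v y) := by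
  obtain ⟨p, hp, _⟩ := exists_charP (F := F)
  exact nonarch v p hp x y

lemma na_eq {x y : RatFunc F} (h : v y < v x) : v (x + y) = v x :=
  abs_add_eq (fun x y => na v x y) h

lemma na_sub {x y : RatFunc F} : v (x - y) ≤ max (v x) (v y) := by
  rw [sub_eq_add_neg]
  refine (na v x (-y)).trans ?_
  rw [v.map_neg]

lemma abs_rf_le (hX : v RatFunc.X ≤ 1) (g : F[X]) : v (rf g) ≤ 1 := by
  induction g using Polynomial.induction_on' with
  | add a b ha hb =>
    simp only [rf, map_add] at *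
    exact (na v _ _).trans (max_le ha hb)
  | monomial n a =>
    have e : rf (monomial n a) = rf (C a) * RatFunc.X ^ n := by
      rw [← C_mul_X_pow_eq_monomial]
      simp only [rf, map_mul, map_pow, RatFunc.algebraMap_X]
    rw [e, map_mul, map_pow]
    rcases eq_or_ne a 0 with rfl | ha
    · simp [rf]
    · rw [abs_rf_C v ha, one_mul]
      exact pow_le_one₀ (v.nonneg _) hX

/-- absolute values of polynomials when `|t| > 1` -/
lemma abs_rf_of_one_lt (hX : 1 < v RatFunc.X) {g : F[X]} (hg : g ≠ 0) :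
    v (rf g) = v RatFunc.X ^ g.natDegree := by
  induction hn : g.natDegree using Nat.strong_induction_on generalizing g with
  | _ n ih =>
    have hlc : g.leadingCoeff ≠ 0 := leadingCoeff_ne_zero.2 hg
    have e : rf g = rf (C g.leadingCoeff) * RatFunc.X ^ g.natDegree + rf g.eraseLead := by
      conv_lhs => rw [← eraseLead_add_C_mul_X_pow g]
      simp only [rf, map_add, map_mul, map_pow, RatFunc.algebraMap_X]
      ring
    have h1 : v (rf (C g.leadingCoeff) * RatFunc.X ^ g.natDegree) = v RatFunc.X ^ g.natDegree := by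
      rw [map_mul, map_pow, abs_rf_C v hlc, one_mul]
    have hpos : 0 < v RatFunc.X ^ g.natDegree := pow_pos (zero_lt_one.trans hX) _
    rw [e, ← hn]
    refine (na_eq v ?_).trans h1
    rw [h1]
    rcases eq_or_ne g.eraseLead 0 with h0 | h0
    · rw [h0]
      simpa [rf] using hpos
    · rcases eraseLead_natDegree_lt_or_eraseLead_eq_zero g with h2 | h2
      · rw [ih _ (hn ▸ h2) h0 rfl]
        exact pow_lt_pow_right₀ hX h2
      · exact absurd h2 h0

variable {v}

/-- `v` is above the irreducible polynomial `π`. -/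
def Above (v : AbsoluteValue (RatFunc F) ℝ) (π : F[X]) : Prop :=
  v RatFunc.X ≤ 1 ∧ v (rf π) < 1

lemma Above.eq_one {π g : F[X]} (h : Above v π) (hπ : Irreducible π) (hg : ¬ π ∣ g) :
    v (rf g) = 1 := by
  obtain ⟨a, b, hab⟩ := (hπ.coprime_iff_not_dvd.2 hg)
  refine le_antisymm (abs_rf_le v h.1 g) (not_lt.1 fun hlt => ?_)
  have h1 : (1 : RatFunc F) = rf a * rf π + rf b * rf g := by
    have := congrArg (algebraMap F[X] (RatFunc F)) hab
    simpa only [map_add, map_mul, map_one] using this.symm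
  have h2 := na v (rf a * rf π) (rf b * rf g)
  rw [← h1, map_one, map_mul, map_mul] at h2
  have h3 : v (rf a) * v (rf π) < 1 := by
    refine (mul_le_mul_of_nonneg_right (abs_rf_le v h.1 a) (v.nonneg _)).trans_lt ?_
    rw [one_mul]; exact h.2
  have h4 : v (rf b) * v (rf g) < 1 := by
    refine (mul_le_mul_of_nonneg_right (abs_rf_le v h.1 b) (v.nonneg _)).trans_lt ?_
    rw [one_mul]; exact hlt
  exact absurd h2 (not_le.2 (max_lt h3 h4))

lemma Above.lt_one_iff {π g : F[X]} (h : Above v π) (hπ : Irreducible π) :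
    v (rf g) < 1 ↔ π ∣ g := by
  refine ⟨fun hlt => ?_, ?_⟩
  · by_contra hg
    rw [h.eq_one hπ hg] at hlt
    exact lt_irrefl _ hlt
  · rintro ⟨a, rfl⟩
    have e : rf (π * a) = rf π * rf a := map_mul _ _ _
    rw [e, map_mul]
    calc v (rf π) * v (rf a) ≤ v (rf π) * 1 :=
          mul_le_mul_of_nonneg_left (abs_rf_le v h.1 a) (v.nonneg _)
      _ < 1 := by rw [mul_one]; exact h.2

lemma exists_zpow {π : F[X]} (hπ : Irreducible π) {z : RatFunc F} (hz : z ≠ 0) :
    ∃ n : ℤ, ∀ v : AbsoluteValue (RatFunc F) ℝ, Above v π → v z = v (rf π) ^ n := by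
  obtain ⟨n, g, h, hg, hh, e⟩ := exists_rf_decomp hπ hz
  refine ⟨n, fun v hv => ?_⟩
  rw [e, map_div₀, map_mul, map_zpow₀, hv.eq_one hπ hg, hv.eq_one hπ hh, mul_one, div_one]

omit [Finite F] in
lemma Above.pos {π : F[X]} (_h : Above v π) (hπ : Irreducible π) : 0 < v (rf π) :=
  v.pos (rf_ne_zero hπ.ne_zero)

omit [Finite F] in
lemma Above.nontrivial {π : F[X]} (h : Above v π) (hπ : Irreducible π) : v.IsNontrivial :=
  ⟨rf π, rf_ne_zero hπ.ne_zero, h.2.ne⟩

lemma zpow_lt_one_iff' {a : ℝ} (h0 : 0 < a) (h1 : a < 1) (n : ℤ) : a ^ n < 1 ↔ 0 < n :=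
  zpow_lt_one_iff_right_of_lt_one₀ h0 h1

lemma Above.isEquiv {w : AbsoluteValue (RatFunc F) ℝ} {π : F[X]} (hv : Above v π)
    (hw : Above w π) (hπ : Irreducible π) : v.IsEquiv w := by
  refine AbsoluteValue.isEquiv_of_lt_one_imp (hv.nontrivial hπ) fun x hx => ?_
  rcases eq_or_ne x 0 with rfl | hx0
  · rw [map_zero]; exact zero_lt_one
  obtain ⟨n, hn⟩ := exists_zpow hπ hx0
  rw [hn v hv, zpow_lt_one_iff' (hv.pos hπ) hv.2] at hx
  rw [hn w hw, zpow_lt_one_iff' (hw.pos hπ) hw.2]
  exact hx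

omit [Finite F] in
lemma exists_above {π : F[X]} (hπ : Irreducible π) :
    ∃ v : AbsoluteValue (RatFunc F) ℝ, Above v π := by
  let P : IsDedekindDomain.HeightOneSpectrum F[X] :=
    { asIdeal := Ideal.span {π}
      isPrime := (Ideal.span_singleton_prime hπ.ne_zero).2 hπ.prime
      ne_bot := by
        rw [Ne, Ideal.span_singleton_eq_bot]
        exact hπ.ne_zero }
  refine ⟨P.adicAbv (K := RatFunc F) (b := 2) (by norm_num), ?_, ?_⟩
  · rw [← RatFunc.algebraMap_X]
    exact P.adicAbv_coe_le_one _ _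
  · rw [rf, P.adicAbv_coe_lt_one_iff]
    exact Ideal.mem_span_singleton_self π

end

section

variable {F : Type} [Field F]

open Classical in
/-- the absolute value at infinity -/
noncomputable def absInf (F : Type) [Field F] : AbsoluteValue (RatFunc F) ℝ where
  toFun x := if x = 0 then 0 else (2 : ℝ) ^ x.intDegree
  map_mul' x y := by
    rcases eq_or_ne x 0 with rfl | hx
    · simp
    rcases eq_or_ne y 0 with rfl | hy
    · simp
    rw [if_neg hx, if_neg hy, if_neg (mul_ne_zero hx hy), RatFunc.intDegree_mul hx hy,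
      zpow_add₀ two_ne_zero]
  nonneg' x := by
    split_ifs
    · exact le_rfl
    · positivity
  eq_zero' x := by
    refine ⟨fun h => ?_, fun h => by rw [if_pos h]⟩
    by_contra hx
    rw [if_neg hx] at h
    exact (zpow_pos (zero_lt_two : (0 : ℝ) < 2) _).ne' h
  add_le' x y := by
    rcases eq_or_ne x 0 with rfl | hx
    · simp
    rcases eq_or_ne y 0 with rfl | hy
    · simp
    have hx' : 0 < (2 : ℝ) ^ x.intDegree := zpow_pos zero_lt_two _
    have hy' : 0 < (2 : ℝ) ^ y.intDegree := zpow_pos zero_lt_two _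
    rcases eq_or_ne (x + y) 0 with hxy | hxy
    · rw [if_pos hxy, if_neg hx, if_neg hy]
      positivity
    rw [if_neg hxy, if_neg hx, if_neg hy]
    have h1 := RatFunc.intDegree_add_le hy hxy
    rcases le_max_iff.1 h1 with h2 | h2
    · have := zpow_le_zpow_right₀ (one_le_two : (1 : ℝ) ≤ 2) h2
      linarith
    · have := zpow_le_zpow_right₀ (one_le_two : (1 : ℝ) ≤ 2) h2
      linarith

lemma absInf_apply {x : RatFunc F} (hx : x ≠ 0) : absInf F x = (2 : ℝ) ^ x.intDegree :=
  if_neg hx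

lemma absInf_X : absInf F RatFunc.X = 2 := by
  rw [absInf_apply RatFunc.X_ne_zero, RatFunc.intDegree_X, zpow_one]

lemma absInf_nontrivial : (absInf F).IsNontrivial :=
  ⟨RatFunc.X, RatFunc.X_ne_zero, by rw [absInf_X]; norm_num⟩

end

end Pool.Agent.Helper47.BSD
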