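import Pool.Agent.Helper47.BSD.Spectral

/-!
# Completions of fields of positive characteristic
-/

set_option autoImplicit false

namespace Pool.Agent.Helper47.BSD

universe u

open Module

section

variable {K : Type u} [Field K] (v : AbsoluteValue K ℝ)

lemma norm_algebraMap (x : K) : ‖algebraMap K v.Completion x‖ = v x := by
  change ‖((WithAbs.toAbs v x : WithAbs v) : v.Completion)‖ = v x
  rw [UniformSpace.Completion.norm_coe]
  rfl

lemma ultra_of_charP (R : Type u) [NormedField R] (p : ℕ) [CharP R p] (hp : p.Prime) :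
    IsUltrametricDist R := by
  haveI : Fact p.Prime := ⟨hp⟩
  rw [isUltrametricDist_iff_forall_norm_natCast_le_one]
  intro n
  have h1 : (n : R) ^ p = n := by
    have := map_natCast (frobenius R p) n
    rwa [frobenius_def] at this
  have h2 : ‖(n : R)‖ ^ p = ‖(n : R)‖ := by rw [← norm_pow, h1]
  by_contra h
  push Not at h
  have h3 : ‖(n : R)‖ ^ 1 < ‖(n : R)‖ ^ p := pow_lt_pow_right₀ h hp.one_lt
  rw [h2, pow_one] at h3
  exact lt_irrefl _ h3

lemma ultra_completion (p : ℕ) [CharP K p] (hp : p.Prime) : IsUltrametricDist v.Completion := by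
  haveI : CharP v.Completion p :=
    charP_of_injective_algebraMap (algebraMap K v.Completion).injective p
  exact ultra_of_charP v.Completion p hp

/-- The completion as a nontrivially normed field. -/
@[instance_reducible]
noncomputable def nontrivNormed (hv : v.IsNontrivial) : NontriviallyNormedField v.Completion where
  non_trivial := by
    obtain ⟨x, hx⟩ := hv.exists_abv_gt_one
    exact ⟨algebraMap K v.Completion x, by rw [norm_algebraMap]; exact hx⟩

lemma exists_abs_eq (p : ℕ) [CharP K p] (hp : p.Prime) (a : v.Completion) (ha : a ≠ 0) :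
    ∃ y : K, y ≠ 0 ∧ v y = ‖a‖ := by
  haveI := ultra_completion v p hp
  have ha' : 0 < ‖a‖ := norm_pos_iff.2 ha
  obtain ⟨y, hy⟩ := Metric.denseRange_iff.1
    (UniformSpace.Completion.denseRange_coe (α := WithAbs v)) a ‖a‖ ha'
  have hy' : ‖a - (algebraMap K v.Completion y.ofAbs)‖ < ‖a‖ := by
    rw [dist_eq_norm] at hy
    exact hy
  have h1 : ‖algebraMap K v.Completion y.ofAbs‖ = ‖a‖ := by
    have h2 := IsUltrametricDist.norm_add_le_max (a - algebraMap K v.Completion y.ofAbs)
      (algebraMap K v.Completion y.ofAbs)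
    rw [sub_add_cancel] at h2
    have h3 := IsUltrametricDist.norm_add_le_max a (-(a - algebraMap K v.Completion y.ofAbs))
    rw [norm_neg, ← sub_eq_add_neg, sub_sub_cancel, max_eq_left hy'.le] at h3
    rcases le_max_iff.1 h2 with h4 | h4
    · exact absurd h4 (not_le.2 hy')
    · exact le_antisymm h3 h4
  rw [norm_algebraMap] at h1
  refine ⟨y.ofAbs, fun h => ?_, h1⟩
  rw [h, map_zero] at h1
  exact ha'.ne h1

end

end Pool.Agent.Helper47.BSD
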