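import Mathlib

/-!
# Descent on Jacobians of cyclic covers of the projective line: definitions
-/

set_option autoImplicit false

namespace Pool.Agent.Helper47.BSD

universe u

/-- Let `C` be the curve `y ^ ℓ = ∏ i, (x - e i) ^ a i` over the field `k`.  The tuple `d` is the
value of the `x - T` map at a closed point of `C` with `y ≠ 0`: there are a finite extension `L` of
`k` and an `L`-point `(x, y)` of `C` with `y ≠ 0` such that `d i` is the norm of `x - e i`. -/
def IsPointValue (ℓ : ℕ) {ι : Type} [Fintype ι] (a : ι → ℕ) {k : Type u} [Field k] (e : ι → k)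
    (d : ι → kˣ) : Prop :=
  ∃ (L : Type u) (_ : Field L) (_ : Algebra k L) (_ : FiniteDimensional k L) (x y : L),
    y ≠ 0 ∧ y ^ ℓ = ∏ i, (x - algebraMap k L (e i)) ^ a i ∧
      ∀ i, (d i : k) = Algebra.norm k (x - algebraMap k L (e i))

/-- The image of the Jacobian of `C` under the `x - T` map, as a subgroup of `∏ i, kˣ` which
contains all `ℓ`-th powers. -/
def descentGroup (ℓ : ℕ) {ι : Type} [Fintype ι] (a : ι → ℕ) {k : Type u} [Field k] (e : ι → k) :
    Subgroup (ι → kˣ) :=
  Subgroup.closure ({d | IsPointValue ℓ a e d} ∪ Set.range fun c : ι → kˣ => c ^ ℓ)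

/-- The map `∏ i, kˣ → ∏ i, k'ˣ` induced by a homomorphism of fields. -/
def mapUnits {ι : Type} {k k' : Type u} [Field k] [Field k'] (f : k →+* k') (d : ι → kˣ) :
    ι → k'ˣ := fun i => Units.map (f : k →* k') (d i)

/-- The Selmer set: the tuples which lie in the descent group over every completion of `k` at a
nontrivial absolute value. -/
def selmerSet (ℓ : ℕ) {ι : Type} [Fintype ι] (a : ι → ℕ) {k : Type u} [Field k] (e : ι → k) :
    Set (ι → kˣ) :=
  {d | ∀ v : AbsoluteValue k ℝ, v.IsNontrivial →
    mapUnits (algebraMap k v.Completion) d ∈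
      descentGroup ℓ a fun i => algebraMap k v.Completion (e i)}

/-- Good reduction at the absolute value `v`: after a substitution `x ↦ c ^ ℓ (x - m)` the branch
points `e i` become `v`-integral and distinct modulo `v`. -/
def IsGood (ℓ : ℕ) {ι : Type} {k : Type u} [Field k] (e : ι → k) (v : AbsoluteValue k ℝ) : Prop :=
  ∃ c m : k, c ≠ 0 ∧ (∀ i, v (c ^ ℓ * (e i - m)) ≤ 1) ∧
    ∀ i j, i ≠ j → v (c ^ ℓ * (e i - e j)) = 1

end Pool.Agent.Helper47.BSD
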