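import Pool.Agent.Helper47.BSD.Compl

/-!
# Absolute values of norms
-/

set_option autoImplicit false

namespace Pool.Agent.Helper47.BSD

universe u

open Module Polynomial

section

variable {K K' : Type u} [Field K] [Field K'] [Algebra K K']

/-- The absolute value of `K'` defined by an embedding into an algebraic closure of `K_v`. -/
noncomputable def embAbs {k : Type u} [NontriviallyNormedField k] [IsUltrametricDist k]
    [CompleteSpace k] [Algebra K k] (σ : K' →ₐ[K] AlgebraicClosure k) : AbsoluteValue K' ℝ :=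
  (specAbs k (AlgebraicClosure k)).comp (f := σ.toRingHom) σ.injective

lemma embAbs_apply {k : Type u} [NontriviallyNormedField k] [IsUltrametricDist k]
    [CompleteSpace k] [Algebra K k] (σ : K' →ₐ[K] AlgebraicClosure k) (x : K') :
    embAbs σ x = specAbs k (AlgebraicClosure k) (σ x) := rfl

lemma embAbs_algebraMap {k : Type u} [NontriviallyNormedField k] [IsUltrametricDist k]
    [CompleteSpace k] [Algebra K k] (σ : K' →ₐ[K] AlgebraicClosure k) (c : K) :
    embAbs σ (algebraMap K K' c) = ‖algebraMap K k c‖ := by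
  rw [embAbs_apply, σ.commutes, IsScalarTower.algebraMap_apply K k (AlgebraicClosure k),
    specAbs_algebraMap]

variable [FiniteDimensional K K'] [Algebra.IsSeparable K K']

lemma norm_eq_prod {k : Type u} [NontriviallyNormedField k] [IsUltrametricDist k]
    [CompleteSpace k] [Algebra K k] (z : K') :
    ‖algebraMap K k (Algebra.norm K z)‖ =
      ∏ σ : K' →ₐ[K] AlgebraicClosure k, embAbs σ z := by
  rw [← specAbs_algebraMap (k := k) (L := AlgebraicClosure k),
    ← IsScalarTower.algebraMap_apply K k (AlgebraicClosure k),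
    Algebra.norm_eq_prod_embeddings K (AlgebraicClosure k) z, map_prod]
  rfl

/-- If `v` has exactly one extension `w` to `K'`, then `|N z|_v = |z|_w ^ [K' : K]`. -/
theorem abs_norm_of_unique (p : ℕ) [CharP K p] (hp : p.Prime) (v : AbsoluteValue K ℝ)
    (hv : v.IsNontrivial) (w : AbsoluteValue K' ℝ)
    (hw : ∀ w₁ : AbsoluteValue K' ℝ, (∀ c, w₁ (algebraMap K K' c) = v c) → w₁ = w) (z : K') :
    v (Algebra.norm K z) = w z ^ finrank K K' := by
  haveI := ultra_completion v p hp
  letI := nontrivNormed v hv
  have h1 := norm_eq_prod (K := K) (K' := K') (k := v.Completion) z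
  have h2 : ‖algebraMap K v.Completion (Algebra.norm K z)‖ = v (Algebra.norm K z) :=
    norm_algebraMap v _
  rw [← h2]
  refine h1.trans ?_
  have h3 : ∀ σ : K' →ₐ[K] AlgebraicClosure v.Completion, embAbs σ = w := fun σ =>
    hw _ fun c => by
      rw [embAbs_algebraMap]
      exact norm_algebraMap v c
  rw [Finset.prod_congr rfl fun σ _ => by rw [h3 σ], Finset.prod_const, Finset.card_univ,
    AlgHom.card]

lemma mem_range_of_fixed {k : Type u} [Field k] (a : AlgebraicClosure k) (hsep : IsSeparable k a)
    (hfix : ∀ τ : AlgebraicClosure k ≃ₐ[k] AlgebraicClosure k, τ a = a) :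
    ∃ b : k, algebraMap k (AlgebraicClosure k) b = a := by
  have h1 : a ∈ (⊥ : Subalgebra k (AlgebraicClosure k)) := by
    by_contra h
    obtain ⟨y, hy, hc⟩ := (notMem_iff_exists_ne_and_isConjRoot hsep (IsAlgClosed.splits _)).1 h
    obtain ⟨τ, hτ⟩ := hc.exists_algEquiv
    exact hy (by rw [← hfix τ.symm, ← hτ, AlgEquiv.symm_apply_apply])
  exact Algebra.mem_bot.1 h1

/-- If the absolute value of `z` at every place of `K'` above `v` is the `ℓ`-th power of an
absolute value of an element, then so is the absolute value of the norm of `z` at `v`. -/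
theorem abs_norm_of_forall (p : ℕ) [CharP K p] (hp : p.Prime) (v : AbsoluteValue K ℝ)
    (hv : v.IsNontrivial) {ℓ : ℕ} (z : K')
    (hz : ∀ w : AbsoluteValue K' ℝ, (∀ c, w (algebraMap K K' c) = v c) →
      ∃ x : K', x ≠ 0 ∧ w z = w x ^ ℓ) :
    ∃ y : K, y ≠ 0 ∧ v (Algebra.norm K z) = v y ^ ℓ := by
  classical
  haveI := ultra_completion v p hp
  letI := nontrivNormed v hv
  have h1 := norm_eq_prod (K := K) (K' := K') (k := v.Completion) z
  have h2 : ‖algebraMap K v.Completion (Algebra.norm K z)‖ = v (Algebra.norm K z) :=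
    norm_algebraMap v _
  have h3 : ∀ (σ : K' →ₐ[K] AlgebraicClosure v.Completion) (c : K),
      embAbs σ (algebraMap K K' c) = v c := fun σ c => by
    rw [embAbs_algebraMap]
    exact norm_algebraMap v c
  choose! x hx0 hx using hz
  -- the product of the chosen elements
  let a : AlgebraicClosure v.Completion :=
    ∏ σ : K' →ₐ[K] AlgebraicClosure v.Completion, σ (x (embAbs σ))
  have ha0 : a ≠ 0 := Finset.prod_ne_zero_iff.2 fun σ _ => by
    simpa using hx0 _ (h3 σ)
  have hsep : IsSeparable v.Completion a := by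
    rw [← mem_separableClosure_iff]
    refine prod_mem fun σ _ => ?_
    rw [mem_separableClosure_iff]
    have h4 : IsSeparable K (x (embAbs σ)) := Algebra.IsSeparable.isSeparable K _
    exact (h4.map σ σ.injective).tower_top v.Completion
  have hfix : ∀ τ : AlgebraicClosure v.Completion ≃ₐ[v.Completion] AlgebraicClosure v.Completion,
      τ a = a := by
    intro τ
    have h5 : ∀ σ : K' →ₐ[K] AlgebraicClosure v.Completion,
        embAbs ((τ.toAlgHom.restrictScalars K).comp σ) = embAbs σ := fun σ => by
      ext y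
      rw [embAbs_apply, embAbs_apply]
      exact (spectralNorm_eq_of_equiv τ (σ y)).symm
    let E : (K' →ₐ[K] AlgebraicClosure v.Completion) ≃
        (K' →ₐ[K] AlgebraicClosure v.Completion) :=
      { toFun := fun σ => (τ.toAlgHom.restrictScalars K).comp σ
        invFun := fun σ => (τ.symm.toAlgHom.restrictScalars K).comp σ
        left_inv := fun σ => by ext y; simp
        right_inv := fun σ => by ext y; simp }
    rw [map_prod]
    refine (Fintype.prod_equiv E _ _ fun σ => ?_)
    change τ (σ (x (embAbs σ))) = τ (σ (x (embAbs ((τ.toAlgHom.restrictScalars K).comp σ))))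
    rw [h5]
  obtain ⟨b, hb⟩ := mem_range_of_fixed a hsep hfix
  have hb0 : b ≠ 0 := fun h => ha0 (by rw [← hb, h, map_zero])
  obtain ⟨y, hy0, hy⟩ := exists_abs_eq v p hp b hb0
  refine ⟨y, hy0, ?_⟩
  rw [hy, ← h2]
  refine h1.trans ?_
  have h6 : ‖b‖ = ∏ σ : K' →ₐ[K] AlgebraicClosure v.Completion, embAbs σ (x (embAbs σ)) := by
    rw [← specAbs_algebraMap (k := v.Completion) (L := AlgebraicClosure v.Completion), hb,
      map_prod]
    rfl
  have h7 : ∏ σ : K' →ₐ[K] AlgebraicClosure v.Completion, embAbs σ z = ‖b‖ ^ ℓ := by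
    rw [h6, ← Finset.prod_pow]
    exact Finset.prod_congr rfl fun σ _ => hx _ (h3 σ)
  exact h7

end

end Pool.Agent.Helper47.BSD
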