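import Pool.Agent.Helper47.BSD.Legendre

/-!
# Generalized Legendre curves `y ^ ℓ = x ^ (ℓ - 1) (x + 1) (x + u ^ (Q + 1))`: the Selmer group
-/

set_option autoImplicit false

namespace Pool.Agent.Helper47.BSD

universe u

open Module

/-- the Selmer set as a subgroup -/
def selmerSub (ℓ : ℕ) {ι : Type} [Fintype ι] (a : ι → ℕ) {k : Type u} [Field k] (e : ι → k) :
    Subgroup (ι → kˣ) where
  carrier := selmerSet ℓ a e
  one_mem' v _ := by
    have : mapUnits (algebraMap k v.Completion) (1 : ι → kˣ) = 1 := by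
      ext i
      simp [mapUnits]
    rw [this]
    exact one_mem _
  mul_mem' {x y} hx hy v hv := by
    rw [mapUnits_mul]
    exact mul_mem (hx v hv) (hy v hv)
  inv_mem' {x} hx v hv := by
    have : mapUnits (algebraMap k v.Completion) x⁻¹ =
        (mapUnits (algebraMap k v.Completion) x)⁻¹ := by
      ext i
      simp [mapUnits]
    rw [this]
    exact inv_mem (hx v hv)

section

variable {K : Type u} [Field K]

/-- from the completion to the field -/
lemma value_of_local (v : AbsoluteValue K ℝ) (p : ℕ) [CharP K p] (hp : p.Prime) {ℓ : ℕ}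
    (z : Kˣ) (r : v.Completionˣ)
    (h : ‖(r : v.Completion)‖ ^ ℓ = ‖algebraMap K v.Completion (z : K)‖) :
    ∃ x : Kˣ, v z = v x ^ ℓ := by
  obtain ⟨x, hx0, hx⟩ := exists_abs_eq v p hp (r : v.Completion) r.ne_zero
  refine ⟨Units.mk0 x hx0, ?_⟩
  rw [Units.val_mk0, hx, h, norm_algebraMap]

lemma nonarch (v : AbsoluteValue K ℝ) (p : ℕ) [CharP K p] (hp : p.Prime) (x y : K) :
    v (x + y) ≤ max (v x) (v y) := by
  haveI := ultra_completion v p hp
  rw [← norm_algebraMap v, ← norm_algebraMap v, ← norm_algebraMap v, map_add]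
  exact IsUltrametricDist.norm_add_le_max _ _

lemma abs_root_unity (v : AbsoluteValue K ℝ) {ζ : K} {n : ℕ} (hn : n ≠ 0) (h : ζ ^ n = 1) :
    v ζ = 1 := by
  have h1 : v ζ ^ n = 1 := by rw [← map_pow, h, map_one]
  exact (pow_eq_one_iff_of_nonneg (v.nonneg _) hn).1 h1

/-- Two different `(Q + 1)`-th roots of unity differ by an element of absolute value `1`. -/
lemma abs_sub_root_unity (v : AbsoluteValue K ℝ) (p : ℕ) [CharP K p] (hp : p.Prime) {f : ℕ}
    (hf : f ≠ 0) {η θ : K} (hη : η ^ (p ^ f + 1) = 1) (hθ : θ ^ (p ^ f + 1) = 1) (hne : η ≠ θ) :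
    v (η - θ) = 1 := by
  haveI : Fact p.Prime := ⟨hp⟩
  have hη0 : η ≠ 0 := fun h => by rw [h, zero_pow (by positivity)] at hη; exact zero_ne_one hη
  have hθ0 : θ ≠ 0 := fun h => by rw [h, zero_pow (by positivity)] at hθ; exact zero_ne_one hθ
  have h1 : (η - θ) ^ (p ^ f) * (η * θ) = -(η - θ) := by
    rw [sub_pow_char_pow]
    have e1 : η ^ (p ^ f) * η = 1 := by rw [← pow_succ, hη]
    have e2 : θ ^ (p ^ f) * θ = 1 := by rw [← pow_succ, hθ]
    calc (η ^ (p ^ f) - θ ^ (p ^ f)) * (η * θ)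
        = (η ^ (p ^ f) * η) * θ - (θ ^ (p ^ f) * θ) * η := by ring
      _ = _ := by rw [e1, e2]; ring
  have h2 := congrArg v h1
  rw [map_mul, map_mul, map_pow, v.map_neg, abs_root_unity v (by positivity) hη,
    abs_root_unity v (by positivity) hθ, mul_one, mul_one] at h2
  have h3 : v (η - θ) ≠ 0 := v.ne_zero (sub_ne_zero.2 hne)
  have hlt : 1 < p ^ f := Nat.one_lt_pow hf hp.one_lt
  have h4 : v (η - θ) ^ (p ^ f - 1) * v (η - θ) = 1 * v (η - θ) := by
    rw [← pow_succ, Nat.sub_add_cancel hlt.le, h2, one_mul]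
  have h5 := mul_right_cancel₀ h3 h4
  exact (pow_eq_one_iff_of_nonneg (v.nonneg _) (by omega)).1 h5

/-- the `x - T` value of the point with abscissa `ζ u` -/
lemma isPointValue_point (p : ℕ) [CharP K p] (hp : p.Prime) {f ℓ : ℕ} (hℓ : ℓ.Prime)
    (hdvd : ℓ ∣ p ^ f + 1) {a : Fin 3 → ℕ} {e : Fin 3 → K} {u : K}
    (h : IsLeg ℓ a e (u ^ (p ^ f + 1))) {ζ : K} (hζ : ζ ^ (p ^ f + 1) = 1) (d : Fin 3 → Kˣ)
    (hd : ∀ j, (d j : K) = ζ * u - e j) : IsPointValue ℓ a e d := by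
  haveI : Fact p.Prime := ⟨hp⟩
  refine ⟨K, inferInstance, inferInstance, inferInstance, ζ * u,
    ζ * u * (1 + ζ * u) ^ ((p ^ f + 1) / ℓ), ?_, ?_, fun j => ?_⟩
  · have h0 : ζ * u ≠ 0 := by
      have := (d 0).ne_zero
      rwa [hd 0, h.e0, sub_zero] at this
    have h1 : 1 + ζ * u ≠ 0 := by
      have := (d 1).ne_zero
      rwa [hd 1, h.e1, sub_neg_eq_add, add_comm] at this
    exact mul_ne_zero h0 (pow_ne_zero _ h1)
  · rw [h.eqn, mul_pow, ← pow_mul, Nat.div_mul_cancel hdvd]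
    have h2 : (ζ * u) ^ ℓ = (ζ * u) ^ (ℓ - 1) * (ζ * u) := by
      rw [← pow_succ, Nat.sub_add_cancel hℓ.one_le]
    have h3 : ζ * u * (1 + ζ * u) ^ (p ^ f) = ζ * u + u ^ (p ^ f + 1) := by
      rw [add_pow_char_pow, one_pow, mul_add, mul_one, ← pow_succ', mul_pow, hζ, one_mul]
    have h4 : (1 + ζ * u) ^ (p ^ f + 1) = (1 + ζ * u) ^ (p ^ f) * (1 + ζ * u) := pow_succ _ _
    rw [h2, h4]
    change _ = (ζ * u) ^ (ℓ - 1) * (ζ * u + 1) * (ζ * u + u ^ (p ^ f + 1))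
    rw [← h3]
    ring
  · rw [hd j]
    change ζ * u - e j = Algebra.norm K (ζ * u - e j)
    rw [Algebra.norm_self]
    rfl

/-- the `x - T` value of the point with abscissa `ζ u` -/
lemma point_value (p : ℕ) [CharP K p] (hp : p.Prime) {f ℓ : ℕ} (hℓ : ℓ.Prime)
    (hdvd : ℓ ∣ p ^ f + 1) {a : Fin 3 → ℕ} {e : Fin 3 → K} {u : K}
    (h : IsLeg ℓ a e (u ^ (p ^ f + 1))) {ζ : K} (hζ : ζ ^ (p ^ f + 1) = 1) (d : Fin 3 → Kˣ)
    (hd : ∀ j, (d j : K) = ζ * u - e j) : d ∈ descentGroup ℓ a e :=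
  Subgroup.subset_closure (Or.inl (isPointValue_point p hp hℓ hdvd h hζ d hd))

/-- The value of an element of the Selmer set at a place of good reduction. -/
lemma leg_good {ℓ : ℕ} (hℓ : ℓ.Prime) (p : ℕ) [CharP K p] (hp : p.Prime) {a : Fin 3 → ℕ}
    {e : Fin 3 → K} {τ : K} (h : IsLeg ℓ a e τ) {d : Fin 3 → Kˣ} (hd : d ∈ selmerSet ℓ a e)
    (v : AbsoluteValue K ℝ) (hv : v.IsNontrivial) (h1 : v τ = 1) (h2 : v (τ - 1) = 1)
    (i : Fin 3) : ∃ x : Kˣ, v (d i) = v x ^ ℓ := by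
  have ha : ∀ i, ¬ ℓ ∣ a i := by
    have h2l := hℓ.two_le
    intro i
    fin_cases i
    · change ¬ ℓ ∣ a 0
      rw [h.a0]
      exact Nat.not_dvd_of_pos_of_lt (by omega) (by omega)
    · change ¬ ℓ ∣ a 1
      rw [h.a1]
      exact Nat.not_dvd_of_pos_of_lt (by omega) (by omega)
    · change ¬ ℓ ∣ a 2
      rw [h.a2]
      exact Nat.not_dvd_of_pos_of_lt (by omega) (by omega)
  have hs : ¬ ℓ ∣ ∑ i, a i := by
    rw [Fin.sum_univ_three, h.a0, h.a1, h.a2, Nat.sub_add_cancel hℓ.one_le]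
    intro hdvd
    have := (Nat.dvd_add_right (dvd_refl ℓ)).1 hdvd
    exact hℓ.one_lt.ne' (Nat.dvd_one.1 this)
  have hg : IsGood ℓ e v := by
    have h1' : v (-τ) = 1 := by rw [v.map_neg, h1]
    have h2' : v (1 - τ) = 1 := by rw [← neg_sub, v.map_neg, h2]
    refine ⟨1, 0, one_ne_zero, fun i => ?_, fun i j hij => ?_⟩
    · rw [one_pow, one_mul, sub_zero]
      fin_cases i
      · change v (e 0) ≤ 1
        rw [h.e0, map_zero]
        exact zero_le_one
      · change v (e 1) ≤ 1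
        rw [h.e1, v.map_neg, map_one]
      · change v (e 2) ≤ 1
        rw [h.e2, h1']
    · rw [one_pow, one_mul]
      fin_cases i <;> fin_cases j
      · exact absurd rfl hij
      · change v (e 0 - e 1) = 1
        rw [h.e0, h.e1, sub_neg_eq_add, zero_add, map_one]
      · change v (e 0 - e 2) = 1
        rw [h.e0, h.e2, sub_neg_eq_add, zero_add, h1]
      · change v (e 1 - e 0) = 1
        rw [h.e0, h.e1, sub_zero, v.map_neg, map_one]
      · exact absurd rfl hij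
      · change v (e 1 - e 2) = 1
        rw [h.e1, h.e2, sub_neg_eq_add, neg_add_eq_sub, h2]
      · change v (e 2 - e 0) = 1
        rw [h.e0, h.e2, sub_zero, h1']
      · change v (e 2 - e 1) = 1
        rw [h.e1, h.e2, sub_neg_eq_add, neg_add_eq_sub, h2']
      · exact absurd rfl hij
  obtain ⟨x, hx0, hx⟩ := exists_root_of_good (K := K) (K' := K) hℓ ha hs p hp v hv hg
    (d' := d) hd i v fun _ => rfl
  exact ⟨Units.mk0 x hx0, hx⟩

lemma leg_hyp_zero {ℓ : ℕ} (hℓ : ℓ.Prime) (p : ℕ) [CharP K p] (hp : p.Prime) (hpℓ : ℓ ≠ p)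
    {a : Fin 3 → ℕ} {e : Fin 3 → K} {τ : K} (h : IsLeg ℓ a e τ) {d : Fin 3 → Kˣ}
    (hd : d ∈ selmerSet ℓ a e) (v : AbsoluteValue K ℝ) (hv : v.IsNontrivial) (hτ : v τ < 1) :
    ∃ r : v.Completionˣ, (r : v.Completion) ^ ℓ = algebraMap K v.Completion (d 1) := by
  haveI := ultra_completion v p hp
  letI := nontrivNormed v hv
  haveI : CharP v.Completion p :=
    charP_of_injective_algebraMap (algebraMap K v.Completion).injective p
  obtain ⟨r, hr⟩ := leg_zero (k := v.Completion) p hp hℓ hpℓ (h.map (algebraMap K v.Completion))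
    ((norm_algebraMap v τ).trans_lt hτ) (hd v hv)
  exact ⟨r, congrArg Units.val hr⟩

lemma leg_hyp_inf {ℓ : ℕ} (hℓ : ℓ.Prime) (p : ℕ) [CharP K p] (hp : p.Prime) (hpℓ : ℓ ≠ p)
    {a : Fin 3 → ℕ} {e : Fin 3 → K} {σ : K} (h : IsLeg ℓ a e (σ ^ ℓ)) {d : Fin 3 → Kˣ}
    (hd : d ∈ selmerSet ℓ a e) (v : AbsoluteValue K ℝ) (hv : v.IsNontrivial) (hσ : 1 < v σ) :
    ∃ r : v.Completionˣ, (r : v.Completion) ^ ℓ = algebraMap K v.Completion (d 2) := by
  haveI := ultra_completion v p hp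
  letI := nontrivNormed v hv
  haveI : CharP v.Completion p :=
    charP_of_injective_algebraMap (algebraMap K v.Completion).injective p
  have h1 := h.map (algebraMap K v.Completion)
  rw [map_pow] at h1
  obtain ⟨r, hr⟩ := leg_inf (k := v.Completion) p hp hℓ hpℓ h1
    (lt_of_lt_of_eq hσ (norm_algebraMap v σ).symm) (hd v hv)
  exact ⟨r, congrArg Units.val hr⟩

lemma leg_hyp_unit {ℓ : ℕ} (hℓ : ℓ.Prime) (p : ℕ) [CharP K p] (hp : p.Prime)
    {a : Fin 3 → ℕ} {e : Fin 3 → K} {τ : K} (h : IsLeg ℓ a e τ) {d : Fin 3 → Kˣ}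
    (hd : d ∈ selmerSet ℓ a e) (v : AbsoluteValue K ℝ) (hv : v.IsNontrivial) (hτ : v τ = 1) :
    ∃ x : Kˣ, v (d 0) = v x ^ ℓ := by
  haveI := ultra_completion v p hp
  letI := nontrivNormed v hv
  obtain ⟨r, hr⟩ := leg_unit (k := v.Completion) hℓ (h.map (algebraMap K v.Completion))
    ((norm_algebraMap v τ).trans hτ) (hd v hv)
  exact value_of_local v p hp (d 0) r hr

lemma leg_hyp_rel {ℓ : ℕ} {a : Fin 3 → ℕ} {e : Fin 3 → K} {τ : K} (h : IsLeg ℓ a e τ)
    {d : Fin 3 → Kˣ} (hd : d ∈ selmerSet ℓ a e) (v : AbsoluteValue K ℝ) (hv : v.IsNontrivial) :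
    ∃ r : v.Completionˣ, (r : v.Completion) ^ ℓ =
      algebraMap K v.Completion ((d 0 ^ (ℓ - 1) * d 1 * d 2 : Kˣ) : K) := by
  obtain ⟨r, hr⟩ := leg_rel (h.map (algebraMap K v.Completion)) (hd v hv)
  refine ⟨r, ?_⟩
  have h1 := congrArg Units.val hr
  rw [Units.val_pow_eq_pow_val] at h1
  rw [h1]
  simp [mapUnits]

end

end Pool.Agent.Helper47.BSD
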