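import Pool.Agent.Helper47.BSD.OneUnit

/-!
# Generalized Legendre curves `y ^ ℓ = x ^ (ℓ - 1) (x + 1) (x + τ)`: local conditions
-/

set_option autoImplicit false

namespace Pool.Agent.Helper47.BSD

universe u

open Module

section Local

variable {k : Type u} [NontriviallyNormedField k] [IsUltrametricDist k] [CompleteSpace k]

/-- `1`-units in finite extensions. -/
lemma exists_pow_of_specAbs (p : ℕ) [CharP k p] (hp : p.Prime) {ℓ : ℕ} (hℓ : ℓ.Prime)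
    (hpℓ : ℓ ≠ p) (L : Type u) [Field L] [Algebra k L] [FiniteDimensional k L] (z : L)
    (hz : specAbs k L (z - 1) < 1) : ∃ r : L, r ≠ 0 ∧ z = r ^ ℓ := by
  letI hNF : NormedField L := spectralNorm.normedField k L
  haveI hcs : CompleteSpace L := spectralNorm.completeSpace k L
  haveI : CharP L p := charP_of_injective_algebraMap (algebraMap k L).injective p
  haveI : IsUltrametricDist L := ultra_of_charP L p hp
  exact exists_pow_of_one_unit p hp hℓ hpℓ z hz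

variable {L : Type u} [Field L] [Algebra k L] [FiniteDimensional k L]

lemma specAbs_one : specAbs k L 1 = 1 := map_one _

lemma abs_add_eq {N : AbsoluteValue L ℝ} (hN : ∀ x y, N (x + y) ≤ max (N x) (N y)) {x y : L}
    (h : N y < N x) : N (x + y) = N x := by
  have := abs_sub_eq hN (x := x) (y := -y) (by rwa [N.map_neg])
  rwa [sub_neg_eq_add] at this

lemma point_zero (p : ℕ) [CharP k p] (hp : p.Prime) {ℓ : ℕ} (hℓ : ℓ.Prime)
    (hpℓ : ℓ ≠ p) (τ x y : L) (hτ : specAbs k L τ < 1) (hy : y ≠ 0)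
    (hxy : y ^ ℓ = x ^ (ℓ - 1) * (x + 1) * (x + τ)) : ∃ r : L, r ≠ 0 ∧ x + 1 = r ^ ℓ := by
  rcases lt_or_ge (specAbs k L x) 1 with hx | hx
  · exact exists_pow_of_specAbs p hp hℓ hpℓ L (x + 1) (by rwa [add_sub_cancel_right])
  · have hx0 : x ≠ 0 := by
      intro h
      rw [h, map_zero] at hx
      exact absurd hx (not_le.2 zero_lt_one)
    obtain ⟨s, hs0, hs⟩ := exists_pow_of_specAbs p hp hℓ hpℓ L (1 + τ / x) (by
      rw [add_sub_cancel_left, map_div₀]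
      exact (div_lt_one (lt_of_lt_of_le zero_lt_one hx)).2 (hτ.trans_le hx))
    refine ⟨y / (x * s), div_ne_zero hy (mul_ne_zero hx0 hs0), ?_⟩
    have h1 : x + τ = x * s ^ ℓ := by
      rw [← hs]
      field_simp
    have h2 : x ^ ℓ = x ^ (ℓ - 1) * x := by
      rw [← pow_succ, Nat.sub_add_cancel hℓ.one_le]
    rw [div_pow, mul_pow, eq_div_iff (mul_ne_zero (pow_ne_zero _ hx0) (pow_ne_zero _ hs0)), hxy,
      h1, h2]
    ring

lemma point_inf (p : ℕ) [CharP k p] (hp : p.Prime) {ℓ : ℕ} (hℓ : ℓ.Prime)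
    (hpℓ : ℓ ≠ p) (σ x y : L) (hσ : 1 < specAbs k L σ) (hy : y ≠ 0)
    (hxy : y ^ ℓ = x ^ (ℓ - 1) * (x + 1) * (x + σ ^ ℓ)) :
    ∃ r : L, r ≠ 0 ∧ x + σ ^ ℓ = r ^ ℓ := by
  have hσ0 : σ ≠ 0 := by
    intro h
    rw [h, map_zero] at hσ
    exact absurd hσ (not_lt.2 zero_le_one)
  have hτ0 : σ ^ ℓ ≠ 0 := pow_ne_zero _ hσ0
  have hτ : 1 < specAbs k L (σ ^ ℓ) := by
    rw [map_pow]
    exact one_lt_pow₀ hσ hℓ.ne_zero
  rcases lt_or_ge (specAbs k L x) (specAbs k L (σ ^ ℓ)) with hx | hx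
  · obtain ⟨s, hs0, hs⟩ := exists_pow_of_specAbs p hp hℓ hpℓ L (1 + x / σ ^ ℓ) (by
      rw [add_sub_cancel_left, map_div₀]
      exact (div_lt_one (zero_lt_one.trans hτ)).2 hx)
    refine ⟨σ * s, mul_ne_zero hσ0 hs0, ?_⟩
    rw [mul_pow, ← hs]
    field_simp
    ring
  · have hx1 : 1 < specAbs k L x := hτ.trans_le hx
    have hx0 : x ≠ 0 := by
      intro h
      rw [h, map_zero] at hx1
      exact absurd hx1 (not_lt.2 zero_le_one)
    obtain ⟨s, hs0, hs⟩ := exists_pow_of_specAbs p hp hℓ hpℓ L (1 + 1 / x) (by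
      rw [add_sub_cancel_left, map_div₀, map_one]
      exact (div_lt_one (zero_lt_one.trans hx1)).2 hx1)
    refine ⟨y / (x * s), div_ne_zero hy (mul_ne_zero hx0 hs0), ?_⟩
    have h1 : x + 1 = x * s ^ ℓ := by
      rw [← hs]
      field_simp
    have h2 : x ^ ℓ = x ^ (ℓ - 1) * x := by
      rw [← pow_succ, Nat.sub_add_cancel hℓ.one_le]
    rw [div_pow, mul_pow, eq_div_iff (mul_ne_zero (pow_ne_zero _ hx0) (pow_ne_zero _ hs0)), hxy,
      h1, h2]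
    ring

lemma point_unit {ℓ : ℕ} (hℓ : ℓ.Prime) (τ x y : L) (hτ : specAbs k L τ = 1) (hx0 : x ≠ 0)
    (hy : y ≠ 0) (hxy : y ^ ℓ = x ^ (ℓ - 1) * (x + 1) * (x + τ)) :
    ∃ r : L, r ≠ 0 ∧ specAbs k L x = specAbs k L r ^ ℓ := by
  have hN := specAbs_add_le (k := k) (L := L)
  have hmul : specAbs k L y ^ ℓ =
      specAbs k L x ^ (ℓ - 1) * specAbs k L (x + 1) * specAbs k L (x + τ) := by
    rw [← map_pow, hxy, map_mul, map_mul, map_pow]
  rcases lt_trichotomy (specAbs k L x) 1 with hx | hx | hx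
  · have h1 : specAbs k L (x + 1) = 1 := by
      rw [add_comm, abs_add_eq hN (by rwa [map_one]), map_one]
    have h2 : specAbs k L (x + τ) = 1 := by
      rw [add_comm, abs_add_eq hN (by rwa [hτ]), hτ]
    rw [h1, h2, mul_one, mul_one] at hmul
    exact exists_root_of_coprime ((Nat.coprime_self_sub_left hℓ.one_le).2
      (Nat.coprime_one_left _)) hx0 hy hmul
  · exact ⟨1, one_ne_zero, by rw [hx, map_one, one_pow]⟩
  · have h1 : specAbs k L (x + 1) = specAbs k L x := abs_add_eq hN (by rwa [map_one])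
    have h2 : specAbs k L (x + τ) = specAbs k L x := abs_add_eq hN (by rwa [hτ])
    have h3 : specAbs k L y ^ ℓ = specAbs k L x ^ (ℓ + 1) := by
      rw [hmul, h1, h2, ← pow_succ, Nat.sub_add_cancel hℓ.one_le, pow_succ]
    exact exists_root_of_coprime (by simp) hx0 hy h3

end Local

section Group

/-- a homomorphism-closed induction principle for the descent group -/
lemma descentGroup_le {ℓ : ℕ} {ι : Type} [Fintype ι] {a : ι → ℕ} {k : Type u} [Field k]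
    {e : ι → k} (S : Subgroup (ι → kˣ)) (h1 : ∀ d, IsPointValue ℓ a e d → d ∈ S)
    (h2 : ∀ c : ι → kˣ, c ^ ℓ ∈ S) : descentGroup ℓ a e ≤ S := by
  rw [descentGroup, Subgroup.closure_le]
  rintro d (hd | ⟨c, rfl⟩)
  · exact h1 d hd
  · exact h2 c

/-- the subgroup of tuples whose `i`-th entry is an `ℓ`-th power -/
def powSub (ℓ : ℕ) {ι : Type} (k : Type u) [Field k] (i : ι) : Subgroup (ι → kˣ) :=
  (powMonoidHom ℓ : kˣ →* kˣ).range.comap (Pi.evalMonoidHom (fun _ : ι => kˣ) i)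

lemma mem_powSub {ℓ : ℕ} {ι : Type} {k : Type u} [Field k] {i : ι} {d : ι → kˣ} :
    d ∈ powSub ℓ k i ↔ ∃ r : kˣ, r ^ ℓ = d i := Iff.rfl

variable {k : Type u} [NontriviallyNormedField k] [IsUltrametricDist k] [CompleteSpace k]

/-- the subgroup of tuples whose `i`-th entry has the norm of an `ℓ`-th power -/
def normSub (ℓ : ℕ) {ι : Type} (k : Type u) [NormedField k] (i : ι) :
    Subgroup (ι → kˣ) :=
  ((powMonoidHom ℓ : ℝˣ →* ℝˣ).comp (Units.map (normHom : k →*₀ ℝ).toMonoidHom)).range.comap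
    ((Units.map (normHom : k →*₀ ℝ).toMonoidHom).comp (Pi.evalMonoidHom (fun _ : ι => kˣ) i))

omit [IsUltrametricDist k] [CompleteSpace k] in
lemma mem_normSub {ℓ : ℕ} {ι : Type} {i : ι} {d : ι → kˣ} :
    d ∈ normSub ℓ k i ↔ ∃ r : kˣ, ‖(r : k)‖ ^ ℓ = ‖(d i : k)‖ := by
  constructor
  · rintro ⟨r, hr⟩
    exact ⟨r, congrArg Units.val hr⟩
  · rintro ⟨r, hr⟩
    exact ⟨r, Units.ext hr⟩

/-- the data of a generalized Legendre curve -/
structure IsLeg (ℓ : ℕ) {k : Type u} [Field k] (a : Fin 3 → ℕ) (e : Fin 3 → k) (τ : k) :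
    Prop where
  a0 : a 0 = ℓ - 1
  a1 : a 1 = 1
  a2 : a 2 = 1
  e0 : e 0 = 0
  e1 : e 1 = -1
  e2 : e 2 = -τ

lemma IsLeg.map {ℓ : ℕ} {k k' : Type u} [Field k] [Field k'] {a : Fin 3 → ℕ} {e : Fin 3 → k}
    {τ : k} (h : IsLeg ℓ a e τ) (f : k →+* k') : IsLeg ℓ a (fun i => f (e i)) (f τ) :=
  ⟨h.a0, h.a1, h.a2, by rw [h.e0, map_zero], by rw [h.e1, map_neg, map_one],
    by rw [h.e2, map_neg]⟩

lemma IsLeg.eqn {ℓ : ℕ} {k : Type u} [Field k] {a : Fin 3 → ℕ} {e : Fin 3 → k} {τ : k}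
    (h : IsLeg ℓ a e τ) {L : Type u} [Field L] [Algebra k L] (x : L) :
    ∏ i, (x - algebraMap k L (e i)) ^ a i =
      x ^ (ℓ - 1) * (x + 1) * (x + algebraMap k L τ) := by
  rw [Fin.prod_univ_three, h.a0, h.a1, h.a2, h.e0, h.e1, h.e2, map_zero, map_neg, map_neg,
    map_one, sub_zero, sub_neg_eq_add, sub_neg_eq_add, pow_one, pow_one]

lemma leg_zero (p : ℕ) [CharP k p] (hp : p.Prime) {ℓ : ℕ} (hℓ : ℓ.Prime) (hpℓ : ℓ ≠ p)
    {a : Fin 3 → ℕ} {e : Fin 3 → k} {τ : k} (h : IsLeg ℓ a e τ) (hτ : ‖τ‖ < 1)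
    {d : Fin 3 → kˣ} (hd : d ∈ descentGroup ℓ a e) : ∃ r : kˣ, r ^ ℓ = d 1 := by
  have key : descentGroup ℓ a e ≤ powSub ℓ k 1 := by
    refine descentGroup_le _ ?_ fun c => ⟨c 1, rfl⟩
    rintro d ⟨L, _, _, _, x, y, hy, hxy, hd⟩
    rw [h.eqn] at hxy
    obtain ⟨r, hr0, hr⟩ := point_zero p hp hℓ hpℓ (algebraMap k L τ) x y
      (by rwa [specAbs_algebraMap]) hy hxy
    refine mem_powSub.2 ⟨Units.mk0 (Algebra.norm k r) (Algebra.norm_ne_zero_iff.2 hr0), ?_⟩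
    ext
    rw [Units.val_pow_eq_pow_val, Units.val_mk0, hd 1, h.e1, map_neg, map_one, sub_neg_eq_add,
      hr, map_pow]
  exact mem_powSub.1 (key hd)

lemma leg_inf (p : ℕ) [CharP k p] (hp : p.Prime) {ℓ : ℕ} (hℓ : ℓ.Prime) (hpℓ : ℓ ≠ p)
    {a : Fin 3 → ℕ} {e : Fin 3 → k} {σ : k} (h : IsLeg ℓ a e (σ ^ ℓ)) (hσ : 1 < ‖σ‖)
    {d : Fin 3 → kˣ} (hd : d ∈ descentGroup ℓ a e) : ∃ r : kˣ, r ^ ℓ = d 2 := by
  have key : descentGroup ℓ a e ≤ powSub ℓ k 2 := by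
    refine descentGroup_le _ ?_ fun c => ⟨c 2, rfl⟩
    rintro d ⟨L, _, _, _, x, y, hy, hxy, hd⟩
    rw [h.eqn, map_pow] at hxy
    obtain ⟨r, hr0, hr⟩ := point_inf p hp hℓ hpℓ (algebraMap k L σ) x y
      (by rwa [specAbs_algebraMap]) hy hxy
    refine mem_powSub.2 ⟨Units.mk0 (Algebra.norm k r) (Algebra.norm_ne_zero_iff.2 hr0), ?_⟩
    ext
    rw [Units.val_pow_eq_pow_val, Units.val_mk0, hd 2, h.e2, map_neg, map_pow, sub_neg_eq_add,
      hr, map_pow]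
  exact mem_powSub.1 (key hd)

lemma leg_unit {ℓ : ℕ} (hℓ : ℓ.Prime) {a : Fin 3 → ℕ} {e : Fin 3 → k} {τ : k}
    (h : IsLeg ℓ a e τ) (hτ : ‖τ‖ = 1)
    {d : Fin 3 → kˣ} (hd : d ∈ descentGroup ℓ a e) : ∃ r : kˣ, ‖(r : k)‖ ^ ℓ = ‖(d 0 : k)‖ := by
  have key : descentGroup ℓ a e ≤ normSub ℓ k 0 := by
    refine descentGroup_le _ ?_ fun c => mem_normSub.2 ⟨c 0, by
      rw [Pi.pow_apply, Units.val_pow_eq_pow_val, norm_pow]⟩
    rintro d ⟨L, _, _, _, x, y, hy, hxy, hd⟩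
    rw [h.eqn] at hxy
    have hx0 : x ≠ 0 := by
      intro hx
      have h0 := hd 0
      rw [h.e0, map_zero, sub_zero, hx, Algebra.norm_zero] at h0
      exact (d 0).ne_zero h0
    obtain ⟨r, hr0, hr⟩ := point_unit hℓ (algebraMap k L τ) x y
      (by rwa [specAbs_algebraMap]) hx0 hy hxy
    refine mem_normSub.2 ⟨Units.mk0 (Algebra.norm k r) (Algebra.norm_ne_zero_iff.2 hr0), ?_⟩
    rw [Units.val_mk0, hd 0, h.e0, map_zero, sub_zero, norm_norm_eq, norm_norm_eq, hr, ← pow_mul,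
      ← pow_mul, mul_comm]
  exact mem_normSub.1 (key hd)

omit [NontriviallyNormedField k] [IsUltrametricDist k] [CompleteSpace k] in
lemma leg_rel {k : Type u} [Field k] {ℓ : ℕ} {a : Fin 3 → ℕ} {e : Fin 3 → k} {τ : k}
    (h : IsLeg ℓ a e τ) {d : Fin 3 → kˣ} (hd : d ∈ descentGroup ℓ a e) :
    ∃ r : kˣ, r ^ ℓ = d 0 ^ (ℓ - 1) * d 1 * d 2 := by
  induction hd using Subgroup.closure_induction with
  | mem d hd =>
    rcases hd with ⟨L, _, _, _, x, y, hy, hxy, hd⟩ | ⟨c, rfl⟩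
    · rw [h.eqn] at hxy
      refine ⟨Units.mk0 (Algebra.norm k y) (Algebra.norm_ne_zero_iff.2 hy), ?_⟩
      ext
      rw [Units.val_pow_eq_pow_val, Units.val_mk0, Units.val_mul, Units.val_mul,
        Units.val_pow_eq_pow_val, hd 0, hd 1, hd 2, h.e0, h.e1, h.e2, ← map_pow, hxy, map_zero,
        map_neg, map_neg, map_one, sub_zero, sub_neg_eq_add, sub_neg_eq_add, map_mul, map_mul,
        map_pow]
    · exact ⟨c 0 ^ (ℓ - 1) * c 1 * c 2, by
        simp only [Pi.pow_apply, mul_pow, ← pow_mul, mul_comm]⟩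
  | one => exact ⟨1, by simp⟩
  | mul x y _ _ hx hy =>
    obtain ⟨r, hr⟩ := hx
    obtain ⟨s, hs⟩ := hy
    refine ⟨r * s, ?_⟩
    rw [mul_pow, hr, hs, Pi.mul_apply, Pi.mul_apply, Pi.mul_apply, mul_pow,
      mul_mul_mul_comm (x 0 ^ (ℓ - 1) * x 1), mul_mul_mul_comm (x 0 ^ (ℓ - 1))]
  | inv x _ hx =>
    obtain ⟨r, hr⟩ := hx
    refine ⟨r⁻¹, ?_⟩
    rw [inv_pow, hr, Pi.inv_apply, Pi.inv_apply, Pi.inv_apply, inv_pow, mul_inv, mul_inv]

end Group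

end Pool.Agent.Helper47.BSD
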