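import Pool.Agent.Helper47.BSD.Main

/-!
# `1`-units in complete fields of characteristic `p` are `ℓ`-th powers
-/

set_option autoImplicit false

namespace Pool.Agent.Helper47.BSD

universe u

open Module Filter Topology

/-- In a complete ultrametric field of characteristic `p` every element `z` with `‖z - 1‖ < 1` is
an `ℓ`-th power, if `ℓ` is prime to `p`. -/
theorem exists_pow_of_one_unit {L : Type u} [NormedField L] [CompleteSpace L]
    [IsUltrametricDist L] (p : ℕ) [CharP L p] (hp : p.Prime) {ℓ : ℕ} (hℓ : ℓ.Prime)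
    (hpℓ : ℓ ≠ p) (z : L) (hz : ‖z - 1‖ < 1) : ∃ r : L, r ≠ 0 ∧ z = r ^ ℓ := by
  haveI : Fact p.Prime := ⟨hp⟩
  have hcop : Nat.Coprime p ℓ := (Nat.coprime_primes hp hℓ).2 (Ne.symm hpℓ)
  have hφ : 0 < Nat.totient ℓ := Nat.totient_pos.2 hℓ.pos
  obtain ⟨o, m, hm⟩ : ∃ o m : ℕ, p ^ o = 1 + ℓ * m ∧ 0 < o := by
    have h1 : p ^ Nat.totient ℓ ≡ 1 [MOD ℓ] := Nat.ModEq.pow_totient hcop
    obtain ⟨m, hm⟩ := (Nat.modEq_iff_dvd' (Nat.one_le_pow _ _ hp.pos)).1 h1.symm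
    refine ⟨Nat.totient ℓ, m, ?_, hφ⟩
    have := Nat.one_le_pow (Nat.totient ℓ) p hp.pos
    omega
  obtain ⟨hm, ho⟩ := hm
  -- `1`-units
  have hunit : ∀ x : L, ‖x - 1‖ < 1 → ‖x‖ = 1 := by
    intro x hx
    have h1 : ‖x - 1‖ ≠ ‖(1 : L)‖ := by rw [norm_one]; exact hx.ne
    have h2 := IsUltrametricDist.norm_add_eq_max_of_norm_ne_norm h1
    rw [sub_add_cancel, norm_one, max_eq_right hx.le] at h2
    exact h2
  have hpow : ∀ (x : L) (n : ℕ), ‖x - 1‖ < 1 → ‖x ^ n - 1‖ ≤ ‖x - 1‖ := by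
    intro x n hx
    induction n with
    | zero => simp
    | succ n ih =>
      have h1 : x ^ (n + 1) - 1 = x ^ n * (x - 1) + (x ^ n - 1) := by ring
      rw [h1]
      refine (IsUltrametricDist.norm_add_le_max _ _).trans (max_le ?_ ih)
      rw [norm_mul, norm_pow, hunit x hx, one_pow, one_mul]
  have hz0 : z ≠ 0 := by
    intro h
    rw [h, zero_sub, norm_neg, norm_one] at hz
    exact lt_irrefl _ hz
  set w : L := z ^ m with hw
  have hw1 : ‖w - 1‖ < 1 := (hpow z m hz).trans_lt hz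
  have hpp : ∀ (x : L) (j : ℕ), ‖x ^ (p ^ j) - 1‖ = ‖x - 1‖ ^ (p ^ j) := by
    intro x j
    have h1 : x ^ p ^ j - 1 = (x - 1) ^ p ^ j := by
      rw [sub_pow_char_pow, one_pow]
    rw [h1, norm_pow]
  -- the partial products
  let s : ℕ → L := fun n => ∏ j ∈ Finset.range n, w ^ (p ^ (o * j))
  have hs1 : ∀ n, ‖s n‖ = 1 := by
    intro n
    rw [norm_prod]
    refine Finset.prod_eq_one fun j _ => ?_
    rw [norm_pow, hunit w hw1, one_pow]
  have hgeo : ∀ n, dist (s n) (s (n + 1)) ≤ 1 * ‖w - 1‖ ^ n := by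
    intro n
    have h1 : s (n + 1) = s n * w ^ (p ^ (o * n)) := Finset.prod_range_succ _ _
    have h2 : s (n + 1) - s n = s n * (w ^ (p ^ (o * n)) - 1) := by rw [h1]; ring
    rw [dist_comm, dist_eq_norm, h2, norm_mul, hs1, hpp, one_mul, one_mul]
    refine pow_le_pow_of_le_one (norm_nonneg _) hw1.le ?_
    calc n ≤ p ^ n := (Nat.lt_pow_self hp.one_lt).le
      _ ≤ p ^ (o * n) := Nat.pow_le_pow_right hp.pos (Nat.le_mul_of_pos_left n ho)
  obtain ⟨r, hr⟩ := cauchySeq_tendsto_of_complete (cauchySeq_of_le_geometric _ _ hw1 hgeo)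
  have hr1 : ‖r‖ = 1 := by
    have h1 : Tendsto (fun n => ‖s n‖) atTop (𝓝 ‖r‖) := hr.norm
    have h2 : Tendsto (fun n => ‖s n‖) atTop (𝓝 1) := by
      simp only [hs1]
      exact tendsto_const_nhds
    exact tendsto_nhds_unique h1 h2
  have hr0 : r ≠ 0 := fun h => by rw [h, norm_zero] at hr1; exact zero_ne_one hr1
  -- `z * s n ^ ℓ = z ^ (p ^ (o * n))`
  have hsn : ∀ n, z * s n ^ ℓ = z ^ (p ^ (o * n)) := by
    intro n
    induction n with
    | zero => simp [s]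
    | succ n ih =>
      have h1 : s (n + 1) = s n * w ^ (p ^ (o * n)) := Finset.prod_range_succ _ _
      have h2 : p ^ (o * (n + 1)) = p ^ (o * n) + p ^ (o * n) * m * ℓ := by
        rw [Nat.mul_succ, pow_add, hm]
        ring
      rw [h1, mul_pow, ← mul_assoc, ih, h2, hw, pow_add, ← pow_mul, ← pow_mul]
      congr 2
      ring
  have hlim : Tendsto (fun n => z ^ (p ^ (o * n))) atTop (𝓝 1) := by
    rw [tendsto_iff_norm_sub_tendsto_zero]
    refine squeeze_zero (fun _ => norm_nonneg _) (fun n => ?_)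
      (tendsto_pow_atTop_nhds_zero_of_lt_one (norm_nonneg (z - 1)) hz)
    rw [hpp]
    refine pow_le_pow_of_le_one (norm_nonneg _) hz.le ?_
    calc n ≤ p ^ n := (Nat.lt_pow_self hp.one_lt).le
      _ ≤ p ^ (o * n) := Nat.pow_le_pow_right hp.pos (Nat.le_mul_of_pos_left n ho)
  have h3 : z * r ^ ℓ = 1 := by
    have h4 : Tendsto (fun n => z * s n ^ ℓ) atTop (𝓝 (z * r ^ ℓ)) :=
      (hr.pow ℓ).const_mul z
    simp only [hsn] at h4
    exact tendsto_nhds_unique h4 hlim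
  refine ⟨r⁻¹, inv_ne_zero hr0, ?_⟩
  rw [inv_pow]
  exact eq_inv_of_mul_eq_one_left h3

end Pool.Agent.Helper47.BSD
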