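import Pool.Agent.Helper47.BSD.Defs

/-!
# Absolute values of point values at places of good reduction
-/

set_option autoImplicit false

namespace Pool.Agent.Helper47.BSD

universe u

open Module

section Abs

variable {L : Type u} [Field L] {N : AbsoluteValue L ℝ}

lemma abs_sub_eq (hN : ∀ x y, N (x + y) ≤ max (N x) (N y)) {x y : L} (h : N y < N x) :
    N (x - y) = N x := by
  have h1 : N (x - y) ≤ N x := by
    have := hN x (-y)
    rw [← sub_eq_add_neg, N.map_neg, max_eq_left h.le] at this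
    exact this
  have h2 := hN (x - y) y
  rw [sub_add_cancel] at h2
  rcases le_max_iff.1 h2 with h3 | h3
  · exact le_antisymm h1 h3
  · exact absurd h3 (not_le.2 h)

lemma exists_root_of_coprime {s ℓ : ℕ} (h : Nat.Coprime s ℓ) {x y : L} (hx : x ≠ 0)
    (hy : y ≠ 0) (hxy : N y ^ ℓ = N x ^ s) : ∃ r : L, r ≠ 0 ∧ N x = N r ^ ℓ := by
  refine ⟨y ^ (s.gcdA ℓ) * x ^ (s.gcdB ℓ), mul_ne_zero (zpow_ne_zero _ hy) (zpow_ne_zero _ hx),
    ?_⟩
  have hx0 : N x ≠ 0 := N.ne_zero hx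
  have h1 : (1 : ℤ) = s * s.gcdA ℓ + ℓ * s.gcdB ℓ := by
    have := Nat.gcd_eq_gcd_ab s ℓ
    rw [h] at this
    exact_mod_cast this
  have h2 : N y ^ (ℓ : ℤ) = N x ^ (s : ℤ) := by exact_mod_cast hxy
  calc N x = N x ^ (1 : ℤ) := (zpow_one _).symm
    _ = N x ^ ((s : ℤ) * s.gcdA ℓ) * N x ^ ((ℓ : ℤ) * s.gcdB ℓ) := by
        rw [← zpow_add₀ hx0, ← h1]
    _ = (N y ^ (ℓ : ℤ)) ^ (s.gcdA ℓ) * N x ^ ((ℓ : ℤ) * s.gcdB ℓ) := by
        rw [h2, ← zpow_mul]
    _ = N (y ^ (s.gcdA ℓ) * x ^ (s.gcdB ℓ)) ^ ℓ := by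
        rw [map_mul, map_zpow₀, map_zpow₀, mul_pow, ← zpow_natCast, ← zpow_natCast,
          ← zpow_mul, ← zpow_mul, ← zpow_mul, mul_comm (ℓ : ℤ), mul_comm (ℓ : ℤ)]

/-- At a place of good reduction the absolute value of `x - e i` is an `ℓ`-th power. -/
lemma good_abs {ℓ : ℕ} (hℓ : ℓ.Prime) {ι : Type} [Fintype ι] {a : ι → ℕ}
    (ha : ∀ i, ¬ ℓ ∣ a i) (hs : ¬ ℓ ∣ ∑ i, a i) (hN : ∀ x y, N (x + y) ≤ max (N x) (N y))
    (e : ι → L) (c m : L) (hc : c ≠ 0) (h1 : ∀ i, N (c ^ ℓ * (e i - m)) ≤ 1)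
    (h2 : ∀ i j, i ≠ j → N (c ^ ℓ * (e i - e j)) = 1) (x y : L) (hy : y ≠ 0)
    (hxy : y ^ ℓ = ∏ i, (x - e i) ^ a i) (i : ι) :
    ∃ r : L, r ≠ 0 ∧ N (x - e i) = N r ^ ℓ := by
  classical
  have hai : ∀ i, a i ≠ 0 := fun i h => ha i (h ▸ dvd_zero _)
  have hne : ∀ i, x - e i ≠ 0 := fun i h => pow_ne_zero ℓ hy (by
    rw [hxy]; exact Finset.prod_eq_zero (Finset.mem_univ i) (by rw [h, zero_pow (hai i)]))
  set X := c ^ ℓ * (x - m) with hX
  have hcl : c ^ ℓ ≠ 0 := pow_ne_zero _ hc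
  have hXE : ∀ i, X - c ^ ℓ * (e i - m) = c ^ ℓ * (x - e i) := fun i => by rw [hX]; ring
  have key : ∃ r : L, r ≠ 0 ∧ N (c ^ ℓ * (x - e i)) = N r ^ ℓ := by
    have hprod : (c ^ (∑ i, a i) * y) ^ ℓ = ∏ i, (c ^ ℓ * (x - e i)) ^ a i := by
      rw [mul_pow, hxy, ← pow_mul, mul_comm (∑ i, a i) ℓ, pow_mul, ← Finset.prod_pow_eq_pow_sum,
        ← Finset.prod_mul_distrib]
      exact Finset.prod_congr rfl fun i _ => (mul_pow _ _ _).symm
    have hY : c ^ (∑ i, a i) * y ≠ 0 := mul_ne_zero (pow_ne_zero _ hc) hy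
    have hN' : N (c ^ (∑ i, a i) * y) ^ ℓ = ∏ i, N (c ^ ℓ * (x - e i)) ^ a i := by
      rw [← map_pow, hprod, map_prod]
      exact Finset.prod_congr rfl fun i _ => map_pow _ _ _
    have hi0 : c ^ ℓ * (x - e i) ≠ 0 := mul_ne_zero hcl (hne i)
    rcases lt_or_ge 1 (N X) with hX1 | hX1
    · -- all absolute values are equal to that of `X`
      have hall : ∀ j, N (c ^ ℓ * (x - e j)) = N X := fun j => by
        rw [← hXE j]
        exact abs_sub_eq hN (lt_of_le_of_lt (h1 j) hX1)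
      have h3 : N (c ^ (∑ i, a i) * y) ^ ℓ = N (c ^ ℓ * (x - e i)) ^ (∑ i, a i) := by
        rw [hN', ← Finset.prod_pow_eq_pow_sum]
        exact Finset.prod_congr rfl fun j _ => by rw [hall j, hall i]
      exact exists_root_of_coprime ((Nat.Prime.coprime_iff_not_dvd hℓ).2 hs).symm hi0 hY h3
    · have hle : ∀ j, N (c ^ ℓ * (x - e j)) ≤ 1 := fun j => by
        rw [← hXE j, sub_eq_add_neg]
        refine (hN _ _).trans (max_le hX1 ?_)
        rw [N.map_neg]
        exact h1 j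
      rcases (hle i).lt_or_eq with hlt | heq
      · have hone : ∀ j, j ≠ i → N (c ^ ℓ * (x - e j)) = 1 := fun j hj => by
          have h4 : c ^ ℓ * (x - e j) = c ^ ℓ * (e i - e j) - -(c ^ ℓ * (x - e i)) := by ring
          have h5 : N (-(c ^ ℓ * (x - e i))) < N (c ^ ℓ * (e i - e j)) := by
            rw [N.map_neg, h2 i j hj.symm]
            exact hlt
          rw [h4, abs_sub_eq hN h5, h2 i j hj.symm]
        have h3 : N (c ^ (∑ i, a i) * y) ^ ℓ = N (c ^ ℓ * (x - e i)) ^ (a i) := by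
          rw [hN', Finset.prod_eq_single i]
          · intro j _ hj
            rw [hone j hj, one_pow]
          · intro h
            exact absurd (Finset.mem_univ i) h
        exact exists_root_of_coprime ((Nat.Prime.coprime_iff_not_dvd hℓ).2 (ha i)).symm hi0 hY h3
      · exact ⟨1, one_ne_zero, by rw [heq, map_one, one_pow]⟩
  obtain ⟨r, hr, hr'⟩ := key
  refine ⟨r / c, div_ne_zero hr hc, ?_⟩
  have hc' : N c ^ ℓ ≠ 0 := pow_ne_zero _ (N.ne_zero hc)
  rw [map_div₀, div_pow, ← hr', map_mul, map_pow, mul_div_cancel_left₀ _ hc']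

end Abs

section Spectral

variable {k : Type u} [NontriviallyNormedField k] [IsUltrametricDist k] [CompleteSpace k]
  {L : Type u} [Field L] [Algebra k L] [FiniteDimensional k L]

/-- The spectral norm as an absolute value. -/
noncomputable def specAbs (k L : Type u) [NontriviallyNormedField k] [IsUltrametricDist k]
    [CompleteSpace k] [Field L] [Algebra k L] [Algebra.IsAlgebraic k L] : AbsoluteValue L ℝ where
  toFun := spectralNorm k L
  map_mul' x y := map_mul (spectralMulAlgNorm k L) x y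
  nonneg' x := spectralNorm_nonneg x
  eq_zero' _ := map_eq_zero_iff_eq_zero (spectralMulAlgNorm k L)
  add_le' x y := map_add_le_add (spectralMulAlgNorm k L) x y

omit [FiniteDimensional k L] in
lemma specAbs_algebraMap [Algebra.IsAlgebraic k L] (c : k) :
    specAbs k L (algebraMap k L c) = ‖c‖ := spectralNorm_extends c

omit [FiniteDimensional k L] in
lemma specAbs_add_le [Algebra.IsAlgebraic k L] (x y : L) :
    specAbs k L (x + y) ≤ max (specAbs k L x) (specAbs k L y) :=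
  isNonarchimedean_spectralNorm x y

lemma norm_norm_eq (z : L) :
    ‖Algebra.norm k z‖ = specAbs k L z ^ finrank k L := by
  have hz : IsIntegral k z := Algebra.IsIntegral.isIntegral z
  have h1 : ‖(minpoly k z).coeff 0‖ = specAbs k L z ^ (minpoly k z).natDegree := by
    have h2 : specAbs k L z = ‖(minpoly k z).coeff 0‖ ^ (1 / (minpoly k z).natDegree : ℝ) :=
      spectralNorm.spectralNorm_eq_norm_coeff_zero_rpow k L z
    have h3 : ((minpoly k z).natDegree : ℝ) ≠ 0 :=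
      Nat.cast_ne_zero.2 (minpoly.natDegree_pos hz).ne'
    rw [h2, ← Real.rpow_natCast, ← Real.rpow_mul (norm_nonneg _), one_div, inv_mul_cancel₀ h3,
      Real.rpow_one]
  have h4 : ‖Algebra.norm k (IntermediateField.AdjoinSimple.gen k z)‖ =
      specAbs k L z ^ (minpoly k z).natDegree := by
    rw [← h1, ← IntermediateField.adjoin.powerBasis_gen hz,
      Algebra.PowerBasis.norm_gen_eq_coeff_zero_minpoly, IntermediateField.adjoin.powerBasis_gen,
      IntermediateField.minpoly_gen, norm_mul, norm_pow, norm_neg, norm_one, one_pow, one_mul]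
  rw [Algebra.norm_eq_norm_adjoin k z, norm_pow, h4, ← pow_mul]
  congr 1
  rw [← IntermediateField.adjoin.finrank hz]
  exact Module.finrank_mul_finrank k (IntermediateField.adjoin k {z}) L

omit [FiniteDimensional k L] in
/-- The absolute values of the elements of the descent group at a place of good reduction are
`ℓ`-th powers. -/
lemma good_value {ℓ : ℕ} (hℓ : ℓ.Prime) {ι : Type} [Fintype ι] {a : ι → ℕ}
    (ha : ∀ i, ¬ ℓ ∣ a i) (hs : ¬ ℓ ∣ ∑ i, a i) (e : ι → k) (c m : k) (hc : c ≠ 0)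
    (h1 : ∀ i, ‖c ^ ℓ * (e i - m)‖ ≤ 1) (h2 : ∀ i j, i ≠ j → ‖c ^ ℓ * (e i - e j)‖ = 1)
    (d : ι → kˣ) (hd : d ∈ descentGroup ℓ a e) (i : ι) :
    ∃ r : k, r ≠ 0 ∧ ‖(d i : k)‖ = ‖r‖ ^ ℓ := by
  induction hd using Subgroup.closure_induction with
  | mem d hd =>
    rcases hd with ⟨M, _, _, _, x, y, hy, hxy, hd⟩ | ⟨c, rfl⟩
    · have h1' : ∀ i, specAbs k M ((algebraMap k M c) ^ ℓ *
          (algebraMap k M (e i) - algebraMap k M m)) ≤ 1 := fun i => by
        rw [← map_pow, ← map_sub, ← map_mul, specAbs_algebraMap]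
        exact h1 i
      have h2' : ∀ i j, i ≠ j → specAbs k M ((algebraMap k M c) ^ ℓ *
          (algebraMap k M (e i) - algebraMap k M (e j))) = 1 := fun i j hij => by
        rw [← map_pow, ← map_sub, ← map_mul, specAbs_algebraMap]
        exact h2 i j hij
      obtain ⟨r, hr, hr'⟩ := good_abs hℓ ha hs (specAbs_add_le (k := k) (L := M))
        (fun i => algebraMap k M (e i)) (algebraMap k M c) (algebraMap k M m)
        (by simpa using hc) h1' h2' x y hy hxy i
      refine ⟨Algebra.norm k r, Algebra.norm_ne_zero_iff.2 hr, ?_⟩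
      rw [hd i, norm_norm_eq, norm_norm_eq, hr', ← pow_mul, ← pow_mul, mul_comm]
    · exact ⟨c i, (c i).ne_zero, by simp⟩
  | one => exact ⟨1, one_ne_zero, by simp⟩
  | mul x y _ _ hx hy =>
    obtain ⟨r, hr, hr'⟩ := hx
    obtain ⟨s, hs, hs'⟩ := hy
    exact ⟨r * s, mul_ne_zero hr hs, by
      rw [Pi.mul_apply, Units.val_mul, norm_mul, hr', hs', norm_mul, mul_pow]⟩
  | inv x _ hx =>
    obtain ⟨r, hr, hr'⟩ := hx
    exact ⟨r⁻¹, inv_ne_zero hr, by
      rw [Pi.inv_apply, Units.val_inv_eq_inv_val, norm_inv, hr', norm_inv, inv_pow]⟩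

end Spectral

end Pool.Agent.Helper47.BSD
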